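import Mathlib

/-!
# Reduction modulo `p` of a system of integral linear relations

The dimension of the space of rational solutions is at most the dimension of the space of
solutions over `ZMod p`.
-/

set_option autoImplicit false

namespace Pool.Agent.ECB

noncomputable section

variable {ι : Type*} [Fintype ι]

/-- The solutions over `K` of a system of integral linear relations. -/
def Sol (Rel : Set (ι → ℤ)) (K : Type*) [CommRing K] : Submodule K (ι → K) where
  carrier := {c | ∀ r ∈ Rel, ∑ i, (r i : K) * c i = 0}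
  zero_mem' := by intro r _; simp
  add_mem' := by
    intro a b ha hb r hr
    simp only [Pi.add_apply, mul_add, Finset.sum_add_distrib]
    rw [ha r hr, hb r hr, add_zero]
  smul_mem' := by
    intro x a ha r hr
    have : ∑ i, (r i : K) * (x • a) i = x * ∑ i, (r i : K) * a i := by
      rw [Finset.mul_sum]
      apply Finset.sum_congr rfl
      intro i _
      rw [Pi.smul_apply, smul_eq_mul]; ring
    rw [this, ha r hr, mul_zero]

theorem mem_Sol {Rel : Set (ι → ℤ)} {K : Type*} [CommRing K] {c : ι → K} :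
    c ∈ Sol Rel K ↔ ∀ r ∈ Rel, ∑ i, (r i : K) * c i = 0 := Iff.rfl

theorem exists_denominator (c : ι → ℚ) : ∃ (N : ℕ) (z : ι → ℤ), N ≠ 0 ∧
    ∀ i, (N : ℚ) * c i = z i := by
  classical
  refine ⟨∏ i, (c i).den, fun i => (c i).num * ∏ j ∈ Finset.univ.erase i, ((c j).den : ℤ), ?_, ?_⟩
  · rw [Finset.prod_ne_zero_iff]
    intro i _
    exact (c i).den_ne_zero
  · intro i
    push_cast
    rw [← Finset.mul_prod_erase _ _ (Finset.mem_univ i)]
    have h1 : (c i : ℚ) * (c i).den = (c i).num := Rat.mul_den_eq_num (c i)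
    rw [← h1]
    ring

theorem finrank_rat_le_int (Rel : Set (ι → ℤ)) :
    Module.finrank ℚ (Sol Rel ℚ) ≤ Module.finrank ℤ (Sol Rel ℤ) := by
  classical
  set b := Module.finBasis ℤ (Sol Rel ℤ) with hb
  set b' : Fin (Module.finrank ℤ (Sol Rel ℤ)) → (ι → ℚ) := fun j i => ((b j : ι → ℤ) i : ℚ)
    with hb'
  have hle : Sol Rel ℚ ≤ Submodule.span ℚ (Set.range b') := by
    intro c hc
    obtain ⟨N, z, hN, hz⟩ := exists_denominator c
    have hzL : z ∈ Sol Rel ℤ := by
      intro r hr
      have h1 := hc r hr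
      have h2 : ((∑ i, (r i : ℤ) * z i : ℤ) : ℚ) = 0 := by
        push_cast
        have : ∑ i, (r i : ℚ) * (z i : ℚ) = N * ∑ i, (r i : ℚ) * c i := by
          rw [Finset.mul_sum]
          apply Finset.sum_congr rfl
          intro i _
          rw [← hz i]; ring
        rw [this, h1, mul_zero]
      exact_mod_cast h2
    have h3 := b.sum_repr ⟨z, hzL⟩
    have h4 : ∀ i, (z i : ℚ) = ∑ j, (b.repr ⟨z, hzL⟩ j : ℚ) * b' j i := by
      intro i
      have h5 := congrArg (fun x : Sol Rel ℤ => (x : ι → ℤ) i) h3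
      simp only [Submodule.coe_sum, Submodule.coe_smul, Finset.sum_apply, Pi.smul_apply,
        smul_eq_mul] at h5
      rw [← h5]
      push_cast
      rfl
    have h6 : c = ∑ j, ((N : ℚ)⁻¹ * (b.repr ⟨z, hzL⟩ j : ℚ)) • b' j := by
      funext i
      rw [Finset.sum_apply]
      have hN' : (N : ℚ) ≠ 0 := by exact_mod_cast hN
      have h7 : c i = (N : ℚ)⁻¹ * z i := by rw [← hz i]; field_simp
      rw [h7, h4 i, Finset.mul_sum]
      apply Finset.sum_congr rfl
      intro j _
      rw [Pi.smul_apply, smul_eq_mul]; ring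
    rw [h6]
    apply Submodule.sum_mem
    intro j _
    exact Submodule.smul_mem _ _ (Submodule.subset_span ⟨j, rfl⟩)
  calc Module.finrank ℚ (Sol Rel ℚ) ≤ Module.finrank ℚ (Submodule.span ℚ (Set.range b')) :=
        Submodule.finrank_mono hle
    _ ≤ Fintype.card (Fin (Module.finrank ℤ (Sol Rel ℤ))) := finrank_range_le_card b'
    _ = _ := Fintype.card_fin _

theorem finrank_int_le_zmod (Rel : Set (ι → ℤ)) (p : ℕ) [Fact p.Prime] :
    Module.finrank ℤ (Sol Rel ℤ) ≤ Module.finrank (ZMod p) (Sol Rel (ZMod p)) := by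
  classical
  set b := Module.finBasis ℤ (Sol Rel ℤ) with hb
  have hmem : ∀ j, (fun i => (((b j : ι → ℤ) i : ℤ) : ZMod p)) ∈ Sol Rel (ZMod p) := by
    intro j r hr
    have h1 := (b j).2 r hr
    have h2 := congrArg (fun x : ℤ => (x : ZMod p)) h1
    push_cast at h2
    simpa using h2
  set b'' : Fin (Module.finrank ℤ (Sol Rel ℤ)) → Sol Rel (ZMod p) := fun j =>
    ⟨fun i => (((b j : ι → ℤ) i : ℤ) : ZMod p), hmem j⟩ with hb''
  have hp0 : (p : ℤ) ≠ 0 := by exact_mod_cast (Fact.out : p.Prime).ne_zero
  have hli : LinearIndependent (ZMod p) b'' := by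
    rw [Fintype.linearIndependent_iff]
    intro g hg j
    set e : Fin (Module.finrank ℤ (Sol Rel ℤ)) → ℤ := fun j => ((g j).val : ℤ) with he
    set x : Sol Rel ℤ := ∑ j, e j • b j with hx
    have hg' : ∀ i, ((x : ι → ℤ) i : ZMod p) = 0 := by
      intro i
      have h1 := congrArg (fun y : Sol Rel (ZMod p) => (y : ι → ZMod p) i) hg
      simp only [Submodule.coe_sum, Submodule.coe_smul, Finset.sum_apply, Pi.smul_apply,
        smul_eq_mul, Submodule.coe_zero, Pi.zero_apply] at h1
      rw [← h1, hx]
      simp only [Submodule.coe_sum, Submodule.coe_smul, Finset.sum_apply, Pi.smul_apply,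
        smul_eq_mul]
      push_cast
      apply Finset.sum_congr rfl
      intro j _
      rw [he, hb'']
      simp
    have hdiv : ∀ i, ∃ y : ℤ, (x : ι → ℤ) i = p * y := by
      intro i
      have := (ZMod.intCast_zmod_eq_zero_iff_dvd _ p).mp (hg' i)
      exact this
    choose y hy using hdiv
    have hyL : y ∈ Sol Rel ℤ := by
      intro r hr
      have h1 := x.2 r hr
      have h2 : (p : ℤ) * ∑ i, ((r i : ℤ) : ℤ) * y i = 0 := by
        rw [Finset.mul_sum, ← h1]
        apply Finset.sum_congr rfl
        intro i _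
        rw [hy i]
        simp only [Int.cast_id]
        ring
      rcases mul_eq_zero.mp h2 with h3 | h3
      · exact absurd h3 hp0
      · exact h3
    have hxy : x = (p : ℤ) • (⟨y, hyL⟩ : Sol Rel ℤ) := by
      apply Subtype.ext
      funext i
      rw [hy i]; rfl
    have h1 : b.repr x j = e j := by
      rw [hx]
      exact congrFun (b.repr_sum_self e) j
    have h2 : b.repr x j = p * b.repr ⟨y, hyL⟩ j := by
      rw [hxy, map_smul, Finsupp.smul_apply, smul_eq_mul]
    have h3 : ((e j : ℤ) : ZMod p) = 0 := by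
      rw [← h1, h2]; push_cast; simp
    rw [he] at h3
    simpa using h3
  have := hli.fintype_card_le_finrank
  rwa [Fintype.card_fin] at this

/-- The dimension of the rational solutions is at most the dimension of the solutions mod `p`. -/
theorem finrank_rat_le_zmod (Rel : Set (ι → ℤ)) (p : ℕ) [Fact p.Prime] :
    Module.finrank ℚ (Sol Rel ℚ) ≤ Module.finrank (ZMod p) (Sol Rel (ZMod p)) :=
  (finrank_rat_le_int Rel).trans (finrank_int_le_zmod Rel p)

end

end Pool.Agent.ECB
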