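import Mathlib
import Pool.Agent.Lib.H4DMLie

/-!
# Shuffles and stuffles of lists; Lie elements and primitive elements

`sh c u v` is the sum of `c` over the shuffles of `u` and `v`, `st c u v` the sum over the
stuffles.  The coefficients of a Lie element are killed by `sh`, those of a primitive element for
the stuffle coproduct by `st`.
-/

set_option autoImplicit false

open scoped TensorProduct

namespace Pool.Agent.ECB

open Pool.Agent.H4DM

/-- The shuffles of two lists, with multiplicity. -/
def shf {α : Type*} : List α → List α → List (List α)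
  | [], v => [v]
  | a :: u, [] => [a :: u]
  | a :: u, b :: v => (shf u (b :: v)).map (a :: ·) ++ (shf (a :: u) v).map (b :: ·)

/-- The stuffles of two lists of positive integers, with multiplicity. -/
def stf : List ℕ+ → List ℕ+ → List (List ℕ+)
  | [], v => [v]
  | a :: u, [] => [a :: u]
  | a :: u, b :: v => (stf u (b :: v)).map (a :: ·) ++ (stf (a :: u) v).map (b :: ·) ++
      (stf u v).map ((a + b) :: ·)

section sums
variable {α : Type*} {R : Type*} [AddCommMonoid R]

/-- The sum of `c` over the shuffles of `u` and `v`. -/
def sh (c : List α → R) (u v : List α) : R := ((shf u v).map c).sum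

/-- The sum of `c` over the stuffles of `u` and `v`. -/
def st (c : List ℕ+ → R) (u v : List ℕ+) : R := ((stf u v).map c).sum

@[simp] theorem shf_nil_left (v : List α) : shf [] v = [v] := by
  rw [shf]

@[simp] theorem shf_nil_right (u : List α) : shf u [] = [u] := by
  cases u with
  | nil => rw [shf]
  | cons a u => rw [shf]

theorem shf_cons_cons (a b : α) (u v : List α) : shf (a :: u) (b :: v) =
    (shf u (b :: v)).map (a :: ·) ++ (shf (a :: u) v).map (b :: ·) := by
  rw [shf]

@[simp] theorem stf_nil_left (v : List ℕ+) : stf [] v = [v] := by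
  rw [stf]

@[simp] theorem stf_nil_right (u : List ℕ+) : stf u [] = [u] := by
  cases u with
  | nil => rw [stf]
  | cons a u => rw [stf]

theorem stf_cons_cons (a b : ℕ+) (u v : List ℕ+) : stf (a :: u) (b :: v) =
    (stf u (b :: v)).map (a :: ·) ++ (stf (a :: u) v).map (b :: ·) ++
      (stf u v).map ((a + b) :: ·) := by
  rw [stf]

@[simp] theorem sh_nil_left (c : List α → R) (v : List α) : sh c [] v = c v := by
  simp [sh]

@[simp] theorem sh_nil_right (c : List α → R) (u : List α) : sh c u [] = c u := by
  simp [sh]

theorem sh_cons_cons (c : List α → R) (a b : α) (u v : List α) : sh c (a :: u) (b :: v) =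
    sh (fun t => c (a :: t)) u (b :: v) + sh (fun t => c (b :: t)) (a :: u) v := by
  rw [sh, shf_cons_cons, List.map_append, List.sum_append, List.map_map, List.map_map]
  rfl

@[simp] theorem st_nil_left (c : List ℕ+ → R) (v : List ℕ+) : st c [] v = c v := by
  simp [st]

@[simp] theorem st_nil_right (c : List ℕ+ → R) (u : List ℕ+) : st c u [] = c u := by
  simp [st]

theorem st_cons_cons (c : List ℕ+ → R) (a b : ℕ+) (u v : List ℕ+) : st c (a :: u) (b :: v) =
    st (fun t => c (a :: t)) u (b :: v) + st (fun t => c (b :: t)) (a :: u) v +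
      st (fun t => c ((a + b) :: t)) u v := by
  rw [st, stf_cons_cons, List.map_append, List.sum_append, List.map_append, List.sum_append,
    List.map_map, List.map_map, List.map_map]
  rfl

theorem sh_congr {c c' : List α → R} (u v : List α)
    (h : ∀ t, t ∈ shf u v → c t = c' t) : sh c u v = sh c' u v := by
  rw [sh, sh]
  congr 1
  exact List.map_congr_left h

theorem st_congr {c c' : List ℕ+ → R} (u v : List ℕ+)
    (h : ∀ t, t ∈ stf u v → c t = c' t) : st c u v = st c' u v := by
  rw [st, st]
  congr 1
  exact List.map_congr_left h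

theorem sh_add (c c' : List α → R) (u v : List α) :
    sh (fun t => c t + c' t) u v = sh c u v + sh c' u v := by
  rw [sh, sh, sh]
  exact List.sum_map_add

theorem st_add (c c' : List ℕ+ → R) (u v : List ℕ+) :
    st (fun t => c t + c' t) u v = st c u v + st c' u v := by
  rw [st, st, st]
  exact List.sum_map_add

theorem perm_of_mem_shf (u v t : List α) (h : t ∈ shf u v) : t.Perm (u ++ v) := by
  induction u generalizing v t with
  | nil => simp at h; subst h; exact List.Perm.refl _
  | cons a u ihu =>
    induction v generalizing t with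
    | nil => simp at h; subst h; simp
    | cons b v ihv =>
      rw [shf_cons_cons, List.mem_append, List.mem_map, List.mem_map] at h
      rcases h with ⟨s, hs, rfl⟩ | ⟨s, hs, rfl⟩
      · exact (ihu _ _ hs).cons a
      · have := ihv _ hs
        exact (this.cons b).trans (List.perm_middle (l₁ := a :: u)).symm

theorem length_of_mem_shf {u v t : List α} (h : t ∈ shf u v) :
    t.length = u.length + v.length := by
  rw [(perm_of_mem_shf u v t h).length_eq, List.length_append]

theorem sum_of_mem_shf {u v t : List ℕ+} (h : t ∈ shf u v) :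
    wt wY t = wt wY u + wt wY v := by
  rw [← wt_append]
  exact List.Perm.sum_eq ((perm_of_mem_shf u v t h).map wY)

theorem wt_of_mem_stf {u v t : List ℕ+} (h : t ∈ stf u v) :
    wt wY t = wt wY u + wt wY v := by
  induction u generalizing v t with
  | nil => simp at h; subst h; simp
  | cons a u ihu =>
    induction v generalizing t with
    | nil => simp at h; subst h; simp
    | cons b v ihv =>
      rw [stf_cons_cons, List.mem_append, List.mem_append, List.mem_map, List.mem_map,
        List.mem_map] at h
      rcases h with (⟨s, hs, rfl⟩ | ⟨s, hs, rfl⟩) | ⟨s, hs, rfl⟩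
      · rw [wt_cons, ihu hs, wt_cons, wt_cons]; ring
      · rw [wt_cons, ihv hs, wt_cons, wt_cons]; ring
      · rw [wt_cons, ihu hs, wt_cons, wt_cons]
        have : wY (a + b) = wY a + wY b := PNat.add_coe a b
        rw [this]; ring

theorem length_of_mem_stf {u v t : List ℕ+} (h : t ∈ stf u v) :
    t.length ≤ u.length + v.length := by
  induction u generalizing v t with
  | nil => simp at h; subst h; simp
  | cons a u ihu =>
    induction v generalizing t with
    | nil => simp at h; subst h; simp
    | cons b v ihv =>
      rw [stf_cons_cons, List.mem_append, List.mem_append, List.mem_map, List.mem_map,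
        List.mem_map] at h
      rcases h with (⟨s, hs, rfl⟩ | ⟨s, hs, rfl⟩) | ⟨s, hs, rfl⟩
      · have := ihu hs; simp only [List.length_cons] at *; omega
      · have := ihv hs; simp only [List.length_cons] at *; omega
      · have := ihu hs; simp only [List.length_cons] at *; omega

/-- If `c` vanishes on lists of length less than `len u + len v`, then the sums over stuffles
and over shuffles agree. -/
theorem st_eq_sh {c : List ℕ+ → R} (u v : List ℕ+)
    (h : ∀ t, wt wY t = wt wY u + wt wY v → t.length < u.length + v.length → c t = 0) :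
    st c u v = sh c u v := by
  induction u generalizing v c with
  | nil => simp
  | cons a u ihu =>
    induction v generalizing c with
    | nil => simp
    | cons b v ihv =>
      rw [st_cons_cons, sh_cons_cons, ihu, ihv]
      · have : st (fun t => c ((a + b) :: t)) u v = 0 := by
          rw [st]
          apply List.sum_eq_zero
          intro x hx
          rw [List.mem_map] at hx
          obtain ⟨t, ht, rfl⟩ := hx
          apply h
          · rw [wt_cons, wt_cons, wt_cons, wt_of_mem_stf ht]
            have : wY (a + b) = wY a + wY b := PNat.add_coe a b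
            rw [this]; ring
          · have := length_of_mem_stf ht
            simp only [List.length_cons]; omega
        rw [this, add_zero]
      · intro t h1 h2
        apply h
        · rw [wt_cons, h1, wt_cons, wt_cons]; ring
        · simp only [List.length_cons] at *; omega
      · intro t h1 h2
        apply h
        · rw [wt_cons, h1, wt_cons, wt_cons]; ring
        · simp only [List.length_cons] at *; omega

end sums

noncomputable section

/-! ### The shuffle coproduct -/

section coproduct
variable {α : Type}

/-- The tensor square. -/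
abbrev T2 (α : Type) : Type := NC α ⊗[ℚ] NC α

/-- The pairing of a tensor with a pair of words. -/
def tcx (a b : List α) : T2 α →ₗ[ℚ] ℚ :=
  LinearMap.mul' ℚ ℚ ∘ₗ TensorProduct.map (cfL a) (cfL b)

theorem tcx_tmul (a b : List α) (p q : NC α) : tcx a b (p ⊗ₜ[ℚ] q) = cf p a * cf q b := by
  simp only [tcx, LinearMap.comp_apply, TensorProduct.map_tmul, LinearMap.mul'_apply]
  rfl

/-- The shuffle coproduct, for which the letters are primitive. -/
def shCop (α : Type) : NC α →ₐ[ℚ] T2 α :=
  MonoidAlgebra.lift ℚ (T2 α) (FreeMonoid α)
    (FreeMonoid.lift (fun a : α => wd [a] ⊗ₜ[ℚ] 1 + 1 ⊗ₜ[ℚ] wd [a]))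

theorem shCop_letter (a : α) : shCop α (wd [a]) = wd [a] ⊗ₜ[ℚ] 1 + 1 ⊗ₜ[ℚ] wd [a] := by
  simp [shCop, wd]

theorem tcx_letter_mul_cons (n i j : α) [DecidableEq α] (a b : List α) (z : T2 α) :
    tcx (i :: a) (j :: b) (shCop α (wd [n]) * z) =
      (if n = i then tcx a (j :: b) z else 0) + (if n = j then tcx (i :: a) b z else 0) := by
  induction z using TensorProduct.induction_on with
  | zero => simp
  | tmul r s =>
    rw [shCop_letter, add_mul, map_add, Algebra.TensorProduct.tmul_mul_tmul,
      Algebra.TensorProduct.tmul_mul_tmul, tcx_tmul, tcx_tmul, tcx_tmul, tcx_tmul, one_mul,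
      one_mul, cf_wd_mul, cf_wd_mul]
    split_ifs <;> ring
  | add u v hu hv =>
    rw [mul_add, map_add, hu, hv, map_add, map_add]
    split_ifs <;> ring

/-- The pairing of the shuffle coproduct of `P` with a pair of words. -/
def ds (a b : List α) : NC α →ₗ[ℚ] ℚ := tcx a b ∘ₗ (shCop α).toLinearMap

theorem ds_apply (a b : List α) (P : NC α) : ds a b P = tcx a b (shCop α P) := rfl

theorem ds_cons_cons (i j : α) (a b : List α) (P : NC α) :
    ds (i :: a) (j :: b) P = ds a (j :: b) (lq1 i P) + ds (i :: a) b (lq1 j P) := by
  classical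
  have : ds (i :: a) (j :: b) = ds a (j :: b) ∘ₗ lq1 i + ds (i :: a) b ∘ₗ lq1 j := by
    apply lin_ext
    intro l
    rcases l with _ | ⟨n, l⟩
    · simp only [LinearMap.add_apply, LinearMap.comp_apply, lq1_nil, map_zero, add_zero]
      rw [ds_apply, wd_nil, map_one, Algebra.TensorProduct.one_def, tcx_tmul, cf_one_cons,
        zero_mul]
    · simp only [LinearMap.add_apply, LinearMap.comp_apply, lq1_wd_cons]
      rw [ds_apply, wd_cons, map_mul, tcx_letter_mul_cons]
      simp only [ds_apply, apply_ite (shCop α), apply_ite (tcx a (j :: b)),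
        apply_ite (tcx (i :: a) b), map_zero]
  exact LinearMap.congr_fun this P

theorem tcx_letter_mul_nil_left (n j : α) [DecidableEq α] (b : List α) (z : T2 α) :
    tcx [] (j :: b) (shCop α (wd [n]) * z) = if n = j then tcx [] b z else 0 := by
  induction z using TensorProduct.induction_on with
  | zero => simp
  | tmul r s =>
    rw [shCop_letter, add_mul, map_add, Algebra.TensorProduct.tmul_mul_tmul,
      Algebra.TensorProduct.tmul_mul_tmul, tcx_tmul, tcx_tmul, tcx_tmul, one_mul,
      one_mul, cf_wd_mul, cf_wd_mul_nil]
    split_ifs <;> ring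
  | add u v hu hv =>
    rw [mul_add, map_add, hu, hv, map_add]
    split_ifs <;> ring

theorem tcx_letter_mul_nil_right (n i : α) [DecidableEq α] (a : List α) (z : T2 α) :
    tcx (i :: a) [] (shCop α (wd [n]) * z) = if n = i then tcx a [] z else 0 := by
  induction z using TensorProduct.induction_on with
  | zero => simp
  | tmul r s =>
    rw [shCop_letter, add_mul, map_add, Algebra.TensorProduct.tmul_mul_tmul,
      Algebra.TensorProduct.tmul_mul_tmul, tcx_tmul, tcx_tmul, tcx_tmul, one_mul,
      one_mul, cf_wd_mul, cf_wd_mul_nil]
    split_ifs <;> ring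
  | add u v hu hv =>
    rw [mul_add, map_add, hu, hv, map_add]
    split_ifs <;> ring

theorem tcx_letter_mul_nil_nil (n : α) (z : T2 α) :
    tcx [] [] (shCop α (wd [n]) * z) = 0 := by
  induction z using TensorProduct.induction_on with
  | zero => simp
  | tmul r s =>
    rw [shCop_letter, add_mul, map_add, Algebra.TensorProduct.tmul_mul_tmul,
      Algebra.TensorProduct.tmul_mul_tmul, tcx_tmul, tcx_tmul, one_mul,
      one_mul, cf_wd_mul_nil, cf_wd_mul_nil]
    ring
  | add u v hu hv => rw [mul_add, map_add, hu, hv, add_zero]

theorem ds_nil_cons (j : α) (b : List α) (P : NC α) :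
    ds [] (j :: b) P = ds [] b (lq1 j P) := by
  classical
  have : ds [] (j :: b) = ds [] b ∘ₗ lq1 j := by
    apply lin_ext
    intro l
    rcases l with _ | ⟨n, l⟩
    · simp only [LinearMap.comp_apply, lq1_nil, map_zero]
      rw [ds_apply, wd_nil, map_one, Algebra.TensorProduct.one_def, tcx_tmul, cf_one_cons,
        mul_zero]
    · simp only [LinearMap.comp_apply, lq1_wd_cons]
      rw [ds_apply, wd_cons, map_mul, tcx_letter_mul_nil_left]
      simp only [ds_apply, apply_ite (shCop α), apply_ite (tcx [] b), map_zero]
  exact LinearMap.congr_fun this P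

theorem ds_cons_nil (i : α) (a : List α) (P : NC α) :
    ds (i :: a) [] P = ds a [] (lq1 i P) := by
  classical
  have : ds (i :: a) [] = ds a [] ∘ₗ lq1 i := by
    apply lin_ext
    intro l
    rcases l with _ | ⟨n, l⟩
    · simp only [LinearMap.comp_apply, lq1_nil, map_zero]
      rw [ds_apply, wd_nil, map_one, Algebra.TensorProduct.one_def, tcx_tmul, cf_one_cons,
        zero_mul]
    · simp only [LinearMap.comp_apply, lq1_wd_cons]
      rw [ds_apply, wd_cons, map_mul, tcx_letter_mul_nil_right]
      simp only [ds_apply, apply_ite (shCop α), apply_ite (tcx a []), map_zero]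
  exact LinearMap.congr_fun this P

theorem ds_nil_nil (P : NC α) : ds [] [] P = cf P [] := by
  classical
  have : ds ([] : List α) [] = cfL [] := by
    apply lin_ext
    intro l
    rcases l with _ | ⟨n, l⟩
    · rw [ds_apply, wd_nil, map_one, Algebra.TensorProduct.one_def, tcx_tmul, cf_one_nil]
      show _ = cf (1 : NC α) []
      rw [cf_one_nil, one_mul]
    · rw [ds_apply, wd_cons, map_mul, tcx_letter_mul_nil_nil]
      show _ = cf (wd [n] * wd l) []
      rw [cf_wd_mul_nil]
  exact LinearMap.congr_fun this P

/-- The shuffle coproduct in coordinates. -/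
theorem ds_eq_sh (a b : List α) (P : NC α) : ds a b P = sh (cf P) a b := by
  induction a generalizing b P with
  | nil =>
    rw [sh_nil_left]
    induction b generalizing P with
    | nil => exact ds_nil_nil P
    | cons j b ih => rw [ds_nil_cons, ih, cf_lq1]
  | cons i a iha =>
    induction b generalizing P with
    | nil => rw [ds_cons_nil, iha, sh_nil_right, sh_nil_right, cf_lq1]
    | cons j b ihb =>
      rw [ds_cons_cons, iha, ihb, sh_cons_cons]
      congr 1
      · apply sh_congr; intro t _; exact cf_lq1 _ _ _
      · apply sh_congr; intro t _; exact cf_lq1 _ _ _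

/-- If `P` is primitive for the shuffle coproduct, its coefficients kill all shuffles. -/
theorem sh_eq_zero_of_prim {P : NC α} (hP : shCop α P = P ⊗ₜ[ℚ] 1 + 1 ⊗ₜ[ℚ] P) {u v : List α}
    (hu : u ≠ []) (hv : v ≠ []) : sh (cf P) u v = 0 := by
  rw [← ds_eq_sh, ds_apply, hP, map_add, tcx_tmul, tcx_tmul, cf_one_ne hu, cf_one_ne hv]
  ring

end coproduct

attribute [local instance] LieRing.ofAssociativeRing

/-- Lie elements are primitive for the shuffle coproduct. -/
theorem shCop_lie {f : NC (Fin 2)} (hf : f ∈ Lie01) :
    shCop (Fin 2) f = f ⊗ₜ[ℚ] 1 + 1 ⊗ₜ[ℚ] f := by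
  induction hf using LieSubalgebra.lieSpan_induction with
  | mem x hx =>
    rcases hx with rfl | hx
    · exact shCop_letter 0
    · rw [Set.mem_singleton_iff] at hx
      subst hx
      exact shCop_letter 1
  | zero => simp
  | add a b _ _ ha hb =>
    rw [map_add, ha, hb, TensorProduct.add_tmul, TensorProduct.tmul_add]; abel
  | smul c a _ ha =>
    rw [map_smul, ha, smul_add, TensorProduct.smul_tmul', TensorProduct.tmul_smul]
  | lie a b _ _ ha hb =>
    rw [LieRing.of_associative_ring_bracket, map_sub, map_mul, map_mul, ha, hb]
    simp only [add_mul, mul_add, Algebra.TensorProduct.tmul_mul_tmul, one_mul, mul_one,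
      TensorProduct.sub_tmul, TensorProduct.tmul_sub]
    abel

/-- The coefficients of a Lie element kill all shuffles. -/
theorem sh_lie {f : NC (Fin 2)} (hf : f ∈ Lie01) {u v : List (Fin 2)}
    (hu : u ≠ []) (hv : v ≠ []) : sh (cf f) u v = 0 :=
  sh_eq_zero_of_prim (shCop_lie hf) hu hv

/-- The stuffle coproduct in coordinates. -/
theorem dd_eq_st (a b : List ℕ+) (P : NC ℕ+) : dd a b P = st (cf P) a b := by
  induction a generalizing b P with
  | nil => rw [st_nil_left, dd_nil_left]
  | cons i a iha =>
    induction b generalizing P with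
    | nil => rw [st_nil_right, dd_nil_right]
    | cons j b ihb =>
      rw [dd_cons_cons, iha, ihb, iha, st_cons_cons]
      congr 1
      · congr 1
        · apply st_congr; intro t _; exact cf_lq1 _ _ _
        · apply st_congr; intro t _; exact cf_lq1 _ _ _
      · apply st_congr; intro t _; exact cf_lq1 _ _ _

/-- The coefficients of a primitive element kill all stuffles. -/
theorem st_prim {P : NC ℕ+} (hP : Prim P) {u v : List ℕ+} (hu : u ≠ []) (hv : v ≠ []) :
    st (cf P) u v = 0 := by
  obtain ⟨i, a, rfl⟩ := List.exists_cons_of_ne_nil hu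
  obtain ⟨j, b, rfl⟩ := List.exists_cons_of_ne_nil hv
  rw [← dd_eq_st]
  exact ((prim_iff P).mp hP).2 i j a b

end

end Pool.Agent.ECB
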