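import Mathlib
import Pool.Agent.ECB.Shuf
import Pool.Agent.ECB.ModP
import Pool.Agent.Lib.H4DMLemmaC

/-!
# The integral double shuffle system in weight `w`

`RelE w` is a set of integral relations for functions on the compositions of `w`: sums over word
shuffles, sums over stuffles, and the vanishing at `1^w`.  The weight `w` part of the double
shuffle Lie algebra embeds in the space of rational solutions.
-/

set_option autoImplicit false

namespace Pool.Agent.ECB

open Pool.Agent.H4DM

noncomputable section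

attribute [local instance] LieRing.ofAssociativeRing

/-- The compositions of `w`, as lists of positive integers. -/
abbrev Cmp (w : ℕ) : Type := {t : List ℕ+ // wt wY t = w}

instance (w : ℕ) : Finite (Cmp w) := by
  let f : Cmp w → List.Vector (Fin 2) w := fun t => ⟨yw t.1, by rw [length_yw, t.2]⟩
  apply Finite.of_injective f
  intro s t h
  apply Subtype.ext
  apply yw_injective
  exact congrArg Subtype.val h

instance (w : ℕ) : Fintype (Cmp w) := Fintype.ofFinite _

/-- Extension by zero. -/
def ext0 {R : Type*} [Zero R] {w : ℕ} (c : Cmp w → R) (t : List ℕ+) : R :=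
  if h : wt wY t = w then c ⟨t, h⟩ else 0

theorem ext0_val {R : Type*} [Zero R] {w : ℕ} (c : Cmp w → R) (t : Cmp w) :
    ext0 c t.1 = c t := by
  rw [ext0, dif_pos t.2]

theorem ext0_of_ne {R : Type*} [Zero R] {w : ℕ} (c : Cmp w → R) {t : List ℕ+}
    (h : wt wY t ≠ w) : ext0 c t = 0 := by
  rw [ext0, dif_neg h]

/-- A sum over a list, written as a sum over an index type. -/
theorem list_sum_eq {ι β R : Type*} [Fintype ι] [BEq β] [LawfulBEq β] [CommRing R] (e : ι → β)
    (he : Function.Injective e) (F : β → R) (L : List β)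
    (hL : ∀ x ∈ L, x ∉ Set.range e → F x = 0) :
    (L.map F).sum = ∑ i, ((L.count (e i) : ℤ) : R) * F (e i) := by
  classical
  induction L with
  | nil => simp
  | cons x L ih =>
    rw [List.map_cons, List.sum_cons, ih (fun y hy => hL y (List.mem_cons_of_mem _ hy))]
    have h1 : ∀ i, (((x :: L).count (e i) : ℤ) : R) * F (e i) =
        (if e i = x then F x else 0) + ((L.count (e i) : ℤ) : R) * F (e i) := by
      intro i
      rw [List.count_cons]
      by_cases h : e i = x
      · rw [if_pos h, if_pos (by rw [beq_iff_eq]; exact h.symm), h]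
        push_cast; ring
      · rw [if_neg h, if_neg (by rw [beq_iff_eq]; exact fun h' => h h'.symm)]
        push_cast; ring
    rw [Finset.sum_congr rfl (fun i _ => h1 i), Finset.sum_add_distrib]
    congr 1
    by_cases hx : x ∈ Set.range e
    · obtain ⟨i, rfl⟩ := hx
      rw [Finset.sum_eq_single i]
      · rw [if_pos rfl]
      · intro j _ hj
        rw [if_neg (fun h => hj (he h))]
      · intro h; exact absurd (Finset.mem_univ i) h
    · rw [hL x List.mem_cons_self hx]
      symm
      apply Finset.sum_eq_zero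
      intro i _
      split_ifs <;> rfl

theorem parse_snd_one (l : List (Fin 2)) : (parse (1 :: l)).2 = (parse l).2 := by
  rw [parse_one]

theorem parse_snd_zero (l : List (Fin 2)) (hl : l ≠ []) (h : (parse l).2 = 0) :
    (parse (0 :: l)).2 = 0 := by
  rcases hp : (parse l).1 with _ | ⟨n, t⟩
  · exfalso
    apply hl
    have := unparse_parse l
    rw [hp, h] at this
    simpa [yw] using this.symm
  · rw [parse_zero_cons hp]; exact h

theorem parse_snd_zero' (l : List (Fin 2)) (h : (parse (0 :: l)).2 = 0) : (parse l).2 = 0 := by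
  rcases hp : (parse l).1 with _ | ⟨n, t⟩
  · rw [parse_zero_nil hp] at h
    simp at h
  · rw [parse_zero_cons hp] at h; exact h

theorem parse_snd_tail (x : Fin 2) (l : List (Fin 2)) (h : (parse (x :: l)).2 = 0) :
    (parse l).2 = 0 := by
  fin_cases x
  · exact parse_snd_zero' l h
  · exact h

theorem parse_snd_cons (x : Fin 2) (l : List (Fin 2)) (hl : l ≠ []) (h : (parse l).2 = 0) :
    (parse (x :: l)).2 = 0 := by
  fin_cases x
  · exact parse_snd_zero l hl h
  · exact h

/-- Shuffles of words ending in `x₁` end in `x₁`. -/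
theorem parse_of_mem_shf {u v l : List (Fin 2)} (hu : (parse u).2 = 0) (hv : (parse v).2 = 0)
    (h : l ∈ shf u v) : (parse l).2 = 0 := by
  induction u generalizing v l with
  | nil => simp at h; subst h; exact hv
  | cons a u ihu =>
    induction v generalizing l with
    | nil => simp at h; subst h; exact hu
    | cons b v ihv =>
      rw [shf_cons_cons, List.mem_append, List.mem_map, List.mem_map] at h
      rcases h with ⟨s, hs, rfl⟩ | ⟨s, hs, rfl⟩
      · apply parse_snd_cons _ _ _ (ihu (parse_snd_tail _ _ hu) hv hs)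
        intro h0
        have := length_of_mem_shf hs
        rw [h0] at this
        simp only [List.length_nil, List.length_cons] at this
        omega
      · apply parse_snd_cons _ _ _ (ihv (parse_snd_tail _ _ hv) hs)
        intro h0
        have := length_of_mem_shf hs
        rw [h0] at this
        simp only [List.length_nil, List.length_cons] at this
        omega

theorem parse_yw (t : List ℕ+) : parse (yw t) = (t, 0) := by
  have := parse_unparse t 0
  simpa using this

theorem eq_yw_of_mem_shf {u v : List ℕ+} {l : List (Fin 2)} (h : l ∈ shf (yw u) (yw v)) :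
    l = yw (parse l).1 := by
  have h1 : (parse l).2 = 0 :=
    parse_of_mem_shf (by rw [parse_yw]) (by rw [parse_yw]) h
  have h2 := unparse_parse l
  rw [h1] at h2
  simpa using h2.symm

theorem wt_of_mem_shf_yw {u v : List ℕ+} {l : List (Fin 2)} (h : l ∈ shf (yw u) (yw v)) :
    wt wY (parse l).1 = wt wY u + wt wY v := by
  rw [← length_yw, ← eq_yw_of_mem_shf h, length_of_mem_shf h, length_yw, length_yw]

/-- The sum over the shuffles of the words attached to `u` and `v`. -/
def wsh {R : Type*} [AddCommMonoid R] (c : List ℕ+ → R) (u v : List ℕ+) : R :=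
  sh (fun l => c (parse l).1) (yw u) (yw v)

/-- The relations: word shuffles, stuffles, and the value at `1^w`. -/
def RelE (w : ℕ) : Set (Cmp w → ℤ) :=
  {r | (∃ u v : List ℕ+, u ≠ [] ∧ v ≠ [] ∧
      r = fun t => ((shf (yw u) (yw v)).count (yw t.1) : ℤ)) ∨
    (∃ u v : List ℕ+, u ≠ [] ∧ v ≠ [] ∧ (∃ x ∈ u ++ v, x ≠ 1) ∧
      r = fun t => ((stf u v).count t.1 : ℤ)) ∨
    r = fun t => if t.1 = List.replicate w 1 then 1 else 0}

theorem cmp_injective (w : ℕ) : Function.Injective (fun t : Cmp w => t.1) :=
  Subtype.val_injective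

theorem yw_cmp_injective (w : ℕ) : Function.Injective (fun t : Cmp w => yw t.1) :=
  fun _ _ h => Subtype.ext (yw_injective h)

theorem wsh_eq_sum {R : Type*} [CommRing R] {w : ℕ} (c : Cmp w → R) (u v : List ℕ+) :
    wsh (ext0 c) u v = ∑ t : Cmp w, (((shf (yw u) (yw v)).count (yw t.1) : ℤ) : R) * c t := by
  rw [wsh, sh, list_sum_eq (fun t : Cmp w => yw t.1) (yw_cmp_injective w)]
  · apply Finset.sum_congr rfl
    intro t _
    simp only [parse_yw, ext0_val]
  · intro l hl hr
    apply ext0_of_ne
    intro h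
    apply hr
    exact ⟨⟨(parse l).1, h⟩, (eq_yw_of_mem_shf hl).symm⟩

theorem st_eq_sum {R : Type*} [CommRing R] {w : ℕ} (c : Cmp w → R) (u v : List ℕ+) :
    st (ext0 c) u v = ∑ t : Cmp w, (((stf u v).count t.1 : ℤ) : R) * c t := by
  rw [st, list_sum_eq (fun t : Cmp w => t.1) (cmp_injective w)]
  · apply Finset.sum_congr rfl
    intro t _
    rw [ext0_val]
  · intro l hl hr
    apply ext0_of_ne
    intro h
    apply hr
    exact ⟨⟨l, h⟩, rfl⟩

theorem ones_eq_sum {R : Type*} [CommRing R] {w : ℕ} (c : Cmp w → R) :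
    ext0 c (List.replicate w 1) =
      ∑ t : Cmp w, (((if t.1 = List.replicate w 1 then 1 else 0 : ℤ)) : R) * c t := by
  have hw : wt wY (List.replicate w 1) = w := by rw [wt_replicate]; simp
  rw [Finset.sum_eq_single (⟨List.replicate w 1, hw⟩ : Cmp w)]
  · simp [ext0, hw]
  · intro t _ ht
    rw [if_neg]
    · simp
    · intro h; exact ht (Subtype.ext h)
  · intro h; exact absurd (Finset.mem_univ _) h

/-- The solutions, in terms of the functions extended by zero. -/
theorem mem_SolE {R : Type*} [CommRing R] {w : ℕ} {c : Cmp w → R} :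
    c ∈ Sol (RelE w) R ↔ (∀ u v : List ℕ+, u ≠ [] → v ≠ [] → wsh (ext0 c) u v = 0) ∧
      (∀ u v : List ℕ+, u ≠ [] → v ≠ [] → (∃ x ∈ u ++ v, x ≠ 1) → st (ext0 c) u v = 0) ∧
      ext0 c (List.replicate w 1) = 0 := by
  rw [mem_Sol]
  constructor
  · intro h
    refine ⟨?_, ?_, ?_⟩
    · intro u v hu hv
      rw [wsh_eq_sum]
      exact h _ (Or.inl ⟨u, v, hu, hv, rfl⟩)
    · intro u v hu hv hx
      rw [st_eq_sum]
      exact h _ (Or.inr (Or.inl ⟨u, v, hu, hv, hx, rfl⟩))
    · rw [ones_eq_sum]
      exact h _ (Or.inr (Or.inr rfl))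
  · rintro ⟨h1, h2, h3⟩ r (⟨u, v, hu, hv, rfl⟩ | ⟨u, v, hu, hv, hx, rfl⟩ | rfl)
    · rw [← wsh_eq_sum]; exact h1 u v hu hv
    · rw [← st_eq_sum]; exact h2 u v hu hv hx
    · rw [← ones_eq_sum]; exact h3

/-! ### The weight `w` part of the double shuffle Lie algebra -/

/-- The weight `w` part of `dm`. -/
def dmw (w : ℕ) : Submodule ℚ (NC (Fin 2)) where
  carrier := {ψ | IsDM ψ ∧ Hg wX w ψ}
  zero_mem' := by
    refine ⟨⟨Lie01.zero_mem, rfl, rfl, rfl, ?_⟩, Hg.zero w⟩
    have : psiStar 0 = 0 := by rw [psiStar, map_zero, map_zero, add_zero]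
    rw [this]
    exact Prim.zero
  add_mem' := by
    rintro a b ⟨ha, ha'⟩ ⟨hb, hb'⟩
    refine ⟨?_, ha'.add hb'⟩
    have h := IsDM.sub ha (IsDM.smul (-1) hb)
    have h2 : a - (-1 : ℚ) • b = a + b := by rw [neg_one_smul, sub_neg_eq_add]
    rwa [h2] at h
  smul_mem' := by
    rintro c a ⟨ha, ha'⟩
    exact ⟨IsDM.smul c ha, ha'.smul c⟩

theorem sh_replicate {α R : Type*} [AddCommMonoid R] (a : α) (n : ℕ) (c : List α → R) :
    sh c [a] (List.replicate n a) = (n + 1) • c (List.replicate (n + 1) a) := by
  induction n generalizing c with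
  | zero => simp
  | succ n ih =>
    rw [List.replicate_succ, sh_cons_cons, ih, sh_nil_left, succ_nsmul' _ (n + 1)]
    rfl

theorem yw_ones (n : ℕ) : yw (List.replicate n 1) = List.replicate n 1 := by
  induction n with
  | zero => rfl
  | succ n ih => rw [List.replicate_succ, yw, ih]; rfl

theorem cf_ones {ψ : NC (Fin 2)} (h : IsDM ψ) (n : ℕ) : cf ψ (List.replicate n 1) = 0 := by
  rcases n with _ | _ | n
  · exact cf_lie_nil h.1
  · exact h.2.2.1
  · have h1 := sh_lie h.1 (u := [1]) (v := List.replicate (n + 1) 1) (by simp)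
      (by simp [List.replicate_succ])
    rw [sh_replicate, nsmul_eq_mul] at h1
    rcases mul_eq_zero.mp h1 with h2 | h2
    · exfalso
      have : ((n + 1 + 1 : ℕ) : ℚ) ≠ 0 := by positivity
      exact this h2
    · exact h2

theorem cf_psiStar_of_ne (ψ : NC (Fin 2)) (t : List ℕ+) (h : ∃ x ∈ t, x ≠ 1) :
    cf (psiStar ψ) t = cf ψ (yw t) := by
  have h1 : cf (corr ψ) t = 0 := by
    rcases all_ones_or t with h2 | ⟨u, n, v, hn, huv⟩
    · exfalso
      obtain ⟨x, hx, hx1⟩ := h
      rw [h2] at hx
      exact hx1 (List.eq_of_mem_replicate hx)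
    · rw [huv]; exact cf_corr ψ u n v hn
  rw [psiStar, cf_add, h1, add_zero, piY_eq, cf_Th]
  simp

theorem exists_ne_one_of_mem_stf {u v t : List ℕ+} (h : t ∈ stf u v) (hx : ∃ x ∈ u ++ v, x ≠ 1) :
    ∃ x ∈ t, x ≠ 1 := by
  induction u generalizing v t with
  | nil => simp at h; subst h; simpa using hx
  | cons a u ihu =>
    induction v generalizing t with
    | nil => simp at h; subst h; simpa using hx
    | cons b v ihv =>
      obtain ⟨x, hx, hx1⟩ := hx
      rw [stf_cons_cons, List.mem_append, List.mem_append, List.mem_map, List.mem_map,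
        List.mem_map] at h
      rw [List.mem_append, List.mem_cons, List.mem_cons] at hx
      rcases h with (⟨s, hs, rfl⟩ | ⟨s, hs, rfl⟩) | ⟨s, hs, rfl⟩
      · by_cases ha : a = 1
        · subst ha
          have : ∃ x ∈ u ++ b :: v, x ≠ 1 := by
            refine ⟨x, ?_, hx1⟩
            rw [List.mem_append, List.mem_cons]
            rcases hx with (h | h) | h
            · exact absurd h hx1
            · exact Or.inl h
            · exact Or.inr h
          obtain ⟨y, hy, hy1⟩ := ihu hs this
          exact ⟨y, List.mem_cons_of_mem _ hy, hy1⟩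
        · exact ⟨a, List.mem_cons_self, ha⟩
      · by_cases hb : b = 1
        · subst hb
          have : ∃ x ∈ a :: u ++ v, x ≠ 1 := by
            refine ⟨x, ?_, hx1⟩
            rw [List.mem_append, List.mem_cons]
            rcases hx with h | (h | h)
            · exact Or.inl h
            · exact absurd h hx1
            · exact Or.inr h
          obtain ⟨y, hy, hy1⟩ := ihv hs this
          exact ⟨y, List.mem_cons_of_mem _ hy, hy1⟩
        · exact ⟨b, List.mem_cons_self, hb⟩
      · refine ⟨a + b, List.mem_cons_self, ?_⟩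
        intro h
        have h1 := congrArg (fun n : ℕ+ => (n : ℕ)) h
        simp only [PNat.add_coe, PNat.one_coe] at h1
        have := a.pos
        have := b.pos
        omega

/-- The coefficients at the words ending in `x₁`. -/
def cof (w : ℕ) : NC (Fin 2) →ₗ[ℚ] (Cmp w → ℚ) where
  toFun ψ t := cf ψ (yw t.1)
  map_add' _ _ := rfl
  map_smul' _ _ := rfl

theorem ext0_cof {w : ℕ} {ψ : NC (Fin 2)} (h : Hg wX w ψ) (t : List ℕ+) :
    ext0 (cof w ψ) t = cf ψ (yw t) := by
  by_cases ht : wt wY t = w
  · rw [ext0, dif_pos ht]; rfl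
  · rw [ext0_of_ne _ ht]
    by_contra hne
    apply ht
    have := h (yw t) (fun h0 => hne h0.symm)
    rwa [wt_wX, length_yw] at this

theorem cof_mem {w : ℕ} {ψ : NC (Fin 2)} (h : ψ ∈ dmw w) : cof w ψ ∈ Sol (RelE w) ℚ := by
  obtain ⟨h1, h2⟩ := h
  have he : ext0 (cof w ψ) = fun t => cf ψ (yw t) := funext (ext0_cof h2)
  rw [mem_SolE, he]
  have hyw : ∀ t : List ℕ+, t ≠ [] → yw t ≠ [] := by
    intro t ht h0
    apply ht
    have := congrArg parse h0
    rw [parse_yw] at this
    exact congrArg Prod.fst this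
  refine ⟨?_, ?_, ?_⟩
  · intro u v hu hv
    rw [wsh, ← sh_lie h1.1 (hyw u hu) (hyw v hv)]
    apply sh_congr
    intro l hl
    rw [← eq_yw_of_mem_shf hl]
  · intro u v hu hv hx
    rw [← st_prim (show Prim (psiStar ψ) from h1.2.2.2.2) hu hv]
    apply st_congr
    intro t ht
    exact (cf_psiStar_of_ne ψ t (exists_ne_one_of_mem_stf ht hx)).symm
  · show cf ψ (yw (List.replicate w 1)) = 0
    rw [yw_ones]; exact cf_ones h1 w

theorem dm_eq_zero {ψ : NC (Fin 2)} (h : IsDM ψ) (h0 : ∀ t, cf ψ (yw t) = 0) : ψ = 0 := by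
  apply Th_injective
  have key : ∀ n, (Th ψ).coeff n = 0 := by
    intro n
    induction n with
    | zero =>
      apply cf_ext
      intro t
      rw [cf_Th]
      simpa using h0 t
    | succ n ih =>
      have h1 := dm_rec h n
      rw [ih, map_zero, neg_zero] at h1
      have hn : ((n : ℚ) + 1) ≠ 0 := by positivity
      exact (smul_eq_zero.mp h1).resolve_left hn
  rw [map_zero]
  ext n : 1
  rw [key n, Polynomial.coeff_zero]

/-- The embedding of `dm_w` in the space of rational solutions. -/
def emb (w : ℕ) : dmw w →ₗ[ℚ] Sol (RelE w) ℚ :=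
  LinearMap.codRestrict (Sol (RelE w) ℚ) (cof w ∘ₗ (dmw w).subtype) (fun ψ => cof_mem ψ.2)

theorem emb_injective (w : ℕ) : Function.Injective (emb w) := by
  rw [injective_iff_map_eq_zero]
  rintro ⟨ψ, h1, h2⟩ h
  apply Subtype.ext
  apply dm_eq_zero h1
  intro t
  rw [← ext0_cof h2]
  have h3 : cof w ψ = 0 := congrArg Subtype.val h
  rw [h3]
  by_cases ht : wt wY t = w
  · rw [ext0, dif_pos ht]; rfl
  · exact ext0_of_ne _ ht

instance (w : ℕ) : Module.Finite ℚ (dmw w) := Module.Finite.of_injective (emb w) (emb_injective w)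

/-- `dim dm_w` is at most the dimension of the space of rational solutions. -/
theorem finrank_dmw_le (w : ℕ) : Module.finrank ℚ (dmw w) ≤ Module.finrank ℚ (Sol (RelE w) ℚ) :=
  LinearMap.finrank_le_finrank_of_injective (emb_injective w)

/-- `dim dm_w` is at most the dimension of the space of solutions modulo `p`. -/
theorem finrank_dmw_le_zmod (w p : ℕ) [Fact p.Prime] :
    Module.finrank ℚ (dmw w) ≤ Module.finrank (ZMod p) (Sol (RelE w) (ZMod p)) :=
  (finrank_dmw_le w).trans (finrank_rat_le_zmod _ p)

end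

end Pool.Agent.ECB
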