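import Mathlib
import Pool.Agent.ECB.Sys

/-!
# Reduction modulo `p` of the integral points of `dm_w`

`redM w p` is the space of the reductions modulo `p` of the elements of `dm_w` with integral
coefficients, seen as functions on the words in `x₀, x₁`.  Its dimension is at least `dim dm_w`
(`finrank_dmw_le_redM`), and its elements satisfy all the integral relations that hold for the
elements of `dm_w`: all shuffles, halved shuffles of a word with itself, stuffles.
-/

set_option autoImplicit false

namespace Pool.Agent.ECB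

open Pool.Agent.H4DM

noncomputable section

section lattice
variable {ι : Type*} [Fintype ι]

/-- The integral points of a rational subspace. -/
def Lat (V : Submodule ℚ (ι → ℚ)) : Submodule ℤ (ι → ℤ) where
  carrier := {z | (fun i => (z i : ℚ)) ∈ V}
  zero_mem' := by
    show (fun i => (((0 : ι → ℤ) i : ℤ) : ℚ)) ∈ V
    have : (fun i => (((0 : ι → ℤ) i : ℤ) : ℚ)) = 0 := by funext i; simp
    rw [this]; exact V.zero_mem
  add_mem' := by
    intro a b ha hb
    show (fun i => (((a + b) i : ℤ) : ℚ)) ∈ V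
    have : (fun i => (((a + b) i : ℤ) : ℚ)) = (fun i => (a i : ℚ)) + fun i => (b i : ℚ) := by
      funext i; simp
    rw [this]; exact V.add_mem ha hb
  smul_mem' := by
    intro x a ha
    show (fun i => (((x • a) i : ℤ) : ℚ)) ∈ V
    have : (fun i => (((x • a) i : ℤ) : ℚ)) = (x : ℚ) • (fun i => (a i : ℚ)) := by
      funext i; simp
    rw [this]; exact V.smul_mem _ ha

omit [Fintype ι] in
theorem mem_Lat {V : Submodule ℚ (ι → ℚ)} {z : ι → ℤ} :
    z ∈ Lat V ↔ (fun i => (z i : ℚ)) ∈ V := Iff.rfl

/-- The reductions modulo `p` of the integral points of a rational subspace. -/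
def Red (V : Submodule ℚ (ι → ℚ)) (p : ℕ) [NeZero p] : Submodule (ZMod p) (ι → ZMod p) where
  carrier := {c | ∃ z ∈ Lat V, ∀ i, c i = (z i : ZMod p)}
  zero_mem' := ⟨0, (Lat V).zero_mem, by intro i; simp⟩
  add_mem' := by
    rintro a b ⟨y, hy, ha⟩ ⟨z, hz, hb⟩
    exact ⟨y + z, (Lat V).add_mem hy hz, by intro i; simp [ha i, hb i]⟩
  smul_mem' := by
    rintro x a ⟨y, hy, ha⟩
    refine ⟨(x.val : ℤ) • y, (Lat V).smul_mem _ hy, ?_⟩
    intro i
    simp [ha i]

theorem finrank_le_Lat (V : Submodule ℚ (ι → ℚ)) :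
    Module.finrank ℚ V ≤ Module.finrank ℤ (Lat V) := by
  classical
  set b := Module.finBasis ℤ (Lat V) with hb
  set b' : Fin (Module.finrank ℤ (Lat V)) → (ι → ℚ) := fun j i => ((b j : ι → ℤ) i : ℚ)
    with hb'
  have hle : V ≤ Submodule.span ℚ (Set.range b') := by
    intro c hc
    obtain ⟨N, z, hN, hz⟩ := exists_denominator c
    have hzL : z ∈ Lat V := by
      rw [mem_Lat]
      have : (fun i => (z i : ℚ)) = (N : ℚ) • c := by
        funext i; rw [← hz i]; simp
      rw [this]; exact V.smul_mem _ hc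
    have h3 := b.sum_repr ⟨z, hzL⟩
    have h4 : ∀ i, (z i : ℚ) = ∑ j, (b.repr ⟨z, hzL⟩ j : ℚ) * b' j i := by
      intro i
      have h5 := congrArg (fun x : Lat V => (x : ι → ℤ) i) h3
      simp only [Submodule.coe_sum, Submodule.coe_smul, Finset.sum_apply, Pi.smul_apply,
        smul_eq_mul] at h5
      rw [← h5]
      push_cast
      rfl
    have h6 : c = ∑ j, ((N : ℚ)⁻¹ * (b.repr ⟨z, hzL⟩ j : ℚ)) • b' j := by
      funext i
      rw [Finset.sum_apply]
      have hN' : (N : ℚ) ≠ 0 := by exact_mod_cast hN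
      have h7 : c i = (N : ℚ)⁻¹ * z i := by rw [← hz i]; field_simp
      rw [h7, h4 i, Finset.mul_sum]
      apply Finset.sum_congr rfl
      intro j _
      rw [Pi.smul_apply, smul_eq_mul]; ring
    rw [h6]
    apply Submodule.sum_mem
    intro j _
    exact Submodule.smul_mem _ _ (Submodule.subset_span ⟨j, rfl⟩)
  calc Module.finrank ℚ V ≤ Module.finrank ℚ (Submodule.span ℚ (Set.range b')) :=
        Submodule.finrank_mono hle
    _ ≤ Fintype.card (Fin (Module.finrank ℤ (Lat V))) := finrank_range_le_card b'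
    _ = _ := Fintype.card_fin _

theorem finrank_Lat_le_Red (V : Submodule ℚ (ι → ℚ)) (p : ℕ) [Fact p.Prime] :
    Module.finrank ℤ (Lat V) ≤ Module.finrank (ZMod p) (Red V p) := by
  classical
  set b := Module.finBasis ℤ (Lat V) with hb
  set b'' : Fin (Module.finrank ℤ (Lat V)) → Red V p := fun j =>
    ⟨fun i => (((b j : ι → ℤ) i : ℤ) : ZMod p), (b j : ι → ℤ), (b j).2, fun _ => rfl⟩ with hb''
  have hp0 : (p : ℤ) ≠ 0 := by exact_mod_cast (Fact.out : p.Prime).ne_zero
  have hpq : (p : ℚ) ≠ 0 := by exact_mod_cast (Fact.out : p.Prime).ne_zero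
  have hli : LinearIndependent (ZMod p) b'' := by
    rw [Fintype.linearIndependent_iff]
    intro g hg j
    set e : Fin (Module.finrank ℤ (Lat V)) → ℤ := fun j => ((g j).val : ℤ) with he
    set x : Lat V := ∑ j, e j • b j with hx
    have hg' : ∀ i, ((x : ι → ℤ) i : ZMod p) = 0 := by
      intro i
      have h1 := congrArg (fun y : Red V p => (y : ι → ZMod p) i) hg
      simp only [Submodule.coe_sum, Submodule.coe_smul, Finset.sum_apply, Pi.smul_apply,
        smul_eq_mul, Submodule.coe_zero, Pi.zero_apply] at h1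
      rw [← h1, hx]
      simp only [Submodule.coe_sum, Submodule.coe_smul, Finset.sum_apply, Pi.smul_apply,
        smul_eq_mul]
      push_cast
      apply Finset.sum_congr rfl
      intro j _
      rw [he, hb'']
      simp
    have hdiv : ∀ i, ∃ y : ℤ, (x : ι → ℤ) i = p * y := by
      intro i
      have := (ZMod.intCast_zmod_eq_zero_iff_dvd _ p).mp (hg' i)
      exact this
    choose y hy using hdiv
    have hyL : y ∈ Lat V := by
      rw [mem_Lat]
      have h1 := x.2
      rw [mem_Lat] at h1
      have h2 : (fun i => (y i : ℚ)) = (p : ℚ)⁻¹ • (fun i => (((x : ι → ℤ) i : ℤ) : ℚ)) := by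
        funext i
        rw [Pi.smul_apply, hy i, smul_eq_mul]
        push_cast
        field_simp
      rw [h2]
      exact V.smul_mem _ h1
    have hxy : x = (p : ℤ) • (⟨y, hyL⟩ : Lat V) := by
      apply Subtype.ext
      funext i
      rw [hy i]; rfl
    have h1 : b.repr x j = e j := by
      rw [hx]
      exact congrFun (b.repr_sum_self e) j
    have h2 : b.repr x j = p * b.repr ⟨y, hyL⟩ j := by
      rw [hxy, map_smul, Finsupp.smul_apply, smul_eq_mul]
    have h3 : ((e j : ℤ) : ZMod p) = 0 := by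
      rw [← h1, h2]; push_cast; simp
    rw [he] at h3
    simpa using h3
  have := hli.fintype_card_le_finrank
  rwa [Fintype.card_fin] at this

end lattice

/-! ### Words of length `w` -/

/-- The words of length `w` in two letters. -/
abbrev Wd (w : ℕ) : Type := {l : List (Fin 2) // l.length = w}

instance (w : ℕ) : Fintype (Wd w) := inferInstanceAs (Fintype (List.Vector (Fin 2) w))

/-- All the coefficients. -/
def cofA (w : ℕ) : NC (Fin 2) →ₗ[ℚ] (Wd w → ℚ) where
  toFun ψ l := cf ψ l.1
  map_add' _ _ := rfl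
  map_smul' _ _ := rfl

theorem cf_of_length_ne {w : ℕ} {ψ : NC (Fin 2)} (h : Hg wX w ψ) {l : List (Fin 2)}
    (hl : l.length ≠ w) : cf ψ l = 0 := by
  by_contra hne
  apply hl
  have := h l hne
  rwa [wt_wX] at this

/-- `dm_w` as a space of functions on the words of length `w`. -/
def dmV (w : ℕ) : Submodule ℚ (Wd w → ℚ) := (dmw w).map (cofA w)

theorem finrank_dmV (w : ℕ) : Module.finrank ℚ (dmw w) ≤ Module.finrank ℚ (dmV w) := by
  let f : dmw w →ₗ[ℚ] dmV w :=
    LinearMap.codRestrict (dmV w) (cofA w ∘ₗ (dmw w).subtype)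
      (fun ψ => Submodule.mem_map_of_mem ψ.2)
  apply LinearMap.finrank_le_finrank_of_injective (f := f)
  rw [injective_iff_map_eq_zero]
  rintro ⟨ψ, h1, h2⟩ h
  apply Subtype.ext
  show ψ = 0
  apply cf_ext
  intro l
  rw [cf_zero]
  by_cases hl : l.length = w
  · have h3 : cofA w ψ = 0 := congrArg Subtype.val h
    exact congrFun h3 ⟨l, hl⟩
  · exact cf_of_length_ne h2 hl

/-- The reductions modulo `p` of the elements of `dm_w` with integral coefficients, as functions
on all words in two letters. -/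
def redM (w p : ℕ) [NeZero p] : Submodule (ZMod p) (List (Fin 2) → ZMod p) where
  carrier := {c | ∃ ψ ∈ dmw w, ∃ z : List (Fin 2) → ℤ, (∀ l, cf ψ l = z l) ∧
    ∀ l, c l = (z l : ZMod p)}
  zero_mem' := ⟨0, (dmw w).zero_mem, 0, by intro l; simp [cf_zero], by intro l; simp⟩
  add_mem' := by
    rintro a b ⟨ψ, hψ, y, hy, ha⟩ ⟨φ, hφ, z, hz, hb⟩
    refine ⟨ψ + φ, (dmw w).add_mem hψ hφ, y + z, ?_, ?_⟩
    · intro l; rw [cf_add, hy l, hz l]; simp
    · intro l; simp [ha l, hb l]
  smul_mem' := by
    rintro x a ⟨ψ, hψ, y, hy, ha⟩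
    refine ⟨((x.val : ℤ) : ℚ) • ψ, (dmw w).smul_mem _ hψ, (x.val : ℤ) • y, ?_, ?_⟩
    · intro l; rw [cf_smul, hy l]; simp
    · intro l; simp [ha l]

theorem mem_redM {w p : ℕ} [NeZero p] {c : List (Fin 2) → ZMod p} :
    c ∈ redM w p ↔ ∃ ψ ∈ dmw w, ∃ z : List (Fin 2) → ℤ, (∀ l, cf ψ l = z l) ∧
      ∀ l, c l = (z l : ZMod p) := Iff.rfl

theorem redM_length {w p : ℕ} [NeZero p] {c : List (Fin 2) → ZMod p} (hc : c ∈ redM w p)
    {l : List (Fin 2)} (hl : l.length ≠ w) : c l = 0 := by
  obtain ⟨ψ, hψ, z, hz, h⟩ := hc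
  have h1 := cf_of_length_ne hψ.2 hl
  rw [hz l] at h1
  have h2 : z l = 0 := by exact_mod_cast h1
  rw [h l, h2]; simp

/-- Restriction of the elements of `redM` to the words of length `w`. -/
def redRes (w p : ℕ) [NeZero p] : redM w p →ₗ[ZMod p] (Wd w → ZMod p) where
  toFun c l := c.1 l.1
  map_add' _ _ := rfl
  map_smul' _ _ := rfl

theorem redRes_injective (w p : ℕ) [NeZero p] : Function.Injective (redRes w p) := by
  rw [injective_iff_map_eq_zero]
  rintro ⟨c, hc⟩ h
  apply Subtype.ext
  funext l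
  by_cases hl : l.length = w
  · exact congrFun h ⟨l, hl⟩
  · exact redM_length hc hl

instance (w p : ℕ) [Fact p.Prime] : Module.Finite (ZMod p) (redM w p) :=
  Module.Finite.of_injective (redRes w p) (redRes_injective w p)

/-- `dim dm_w` is at most the dimension of the space of reductions modulo `p`. -/
theorem finrank_dmw_le_redM (w p : ℕ) [Fact p.Prime] :
    Module.finrank ℚ (dmw w) ≤ Module.finrank (ZMod p) (redM w p) := by
  refine (finrank_dmV w).trans ((finrank_le_Lat _).trans ((finrank_Lat_le_Red _ p).trans ?_))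
  have hle : Red (dmV w) p ≤ LinearMap.range (redRes w p) := by
    rintro c ⟨z, hz, hc⟩
    rw [mem_Lat] at hz
    obtain ⟨ψ, hψ, h⟩ := hz
    let z' : List (Fin 2) → ℤ := fun l => if hl : l.length = w then z ⟨l, hl⟩ else 0
    have hz' : ∀ l, cf ψ l = z' l := by
      intro l
      by_cases hl : l.length = w
      · have : z' l = z ⟨l, hl⟩ := by simp only [z', dif_pos hl]
        rw [this]
        exact congrFun h ⟨l, hl⟩
      · have : z' l = 0 := by simp only [z', dif_neg hl]
        rw [this, cf_of_length_ne hψ.2 hl]; simp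
    refine ⟨⟨fun l => (z' l : ZMod p), ψ, hψ, z', hz', fun _ => rfl⟩, ?_⟩
    funext l
    show ((z' l.1 : ℤ) : ZMod p) = c l
    rw [hc l]
    congr 1
    simp only [z', dif_pos l.2]
  calc Module.finrank (ZMod p) (Red (dmV w) p)
      ≤ Module.finrank (ZMod p) (LinearMap.range (redRes w p)) := Submodule.finrank_mono hle
    _ ≤ Module.finrank (ZMod p) (redM w p) := LinearMap.finrank_range_le _

/-! ### The relations -/

section maps
variable {α : Type*} {R S : Type*} [AddCommMonoid R] [AddCommMonoid S]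

theorem map_sh (f : R →+ S) (c : List α → R) (u v : List α) :
    f (sh c u v) = sh (fun t => f (c t)) u v := by
  rw [sh, sh, map_list_sum, List.map_map]; rfl

theorem map_st (f : R →+ S) (c : List ℕ+ → R) (u v : List ℕ+) :
    f (st c u v) = st (fun t => f (c t)) u v := by
  rw [st, st, map_list_sum, List.map_map]; rfl

theorem sh_comm (c : List α → R) (u v : List α) : sh c u v = sh c v u := by
  induction u generalizing c v with
  | nil => simp
  | cons a u ihu =>
    induction v generalizing c with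
    | nil => simp
    | cons b v ihv => rw [sh_cons_cons, sh_cons_cons, ihu, ihv, add_comm]

/-- Half of the sum over the shuffles of `a :: u` with itself. -/
def hsh (c : List α → R) (a : α) (u : List α) : R := sh (fun t => c (a :: t)) u (a :: u)

theorem two_hsh (c : List α → R) (a : α) (u : List α) :
    sh c (a :: u) (a :: u) = hsh c a u + hsh c a u := by
  rw [sh_cons_cons, hsh, sh_comm (fun t => c (a :: t)) (a :: u) u]

theorem map_hsh (f : R →+ S) (c : List α → R) (a : α) (u : List α) :
    f (hsh c a u) = hsh (fun t => f (c t)) a u := by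
  rw [hsh, map_sh]; rfl

end maps

theorem hsh_lie {f : NC (Fin 2)} (hf : f ∈ Lie01) (a : Fin 2) (u : List (Fin 2)) :
    hsh (cf f) a u = 0 := by
  have h := sh_lie hf (u := a :: u) (v := a :: u) (by simp) (by simp)
  rw [two_hsh] at h
  linarith

theorem cf_zeros {ψ : NC (Fin 2)} (h : IsDM ψ) (n : ℕ) : cf ψ (List.replicate n 0) = 0 := by
  rcases n with _ | _ | n
  · exact cf_lie_nil h.1
  · exact h.2.1
  · have h1 := sh_lie h.1 (u := [0]) (v := List.replicate (n + 1) 0) (by simp)
      (by simp [List.replicate_succ])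
    rw [sh_replicate, nsmul_eq_mul] at h1
    rcases mul_eq_zero.mp h1 with h2 | h2
    · exfalso
      have : ((n + 1 + 1 : ℕ) : ℚ) ≠ 0 := by positivity
      exact this h2
    · exact h2

section rels
variable {w p : ℕ} [NeZero p] {c : List (Fin 2) → ZMod p}

theorem redM_sh (hc : c ∈ redM w p) {u v : List (Fin 2)} (hu : u ≠ []) (hv : v ≠ []) :
    sh c u v = 0 := by
  obtain ⟨ψ, hψ, z, hz, h⟩ := hc
  have h1 := sh_lie hψ.1.1 hu hv
  have h2 : sh z u v = 0 := by
    have h3 := map_sh (Int.castAddHom ℚ) z u v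
    have h4 : (fun t => (Int.castAddHom ℚ) (z t)) = cf ψ := by
      funext t; exact (hz t).symm
    rw [h4, h1] at h3
    have h5 : ((sh z u v : ℤ) : ℚ) = 0 := h3
    exact_mod_cast h5
  have h6 := map_sh (Int.castAddHom (ZMod p)) z u v
  have h7 : (fun t => (Int.castAddHom (ZMod p)) (z t)) = c := by
    funext t; exact (h t).symm
  rw [h7, h2, map_zero] at h6
  exact h6.symm

theorem redM_hsh (hc : c ∈ redM w p) (a : Fin 2) (u : List (Fin 2)) : hsh c a u = 0 := by
  obtain ⟨ψ, hψ, z, hz, h⟩ := hc
  have h1 := hsh_lie hψ.1.1 a u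
  have h2 : hsh z a u = 0 := by
    have h3 := map_hsh (Int.castAddHom ℚ) z a u
    have h4 : (fun t => (Int.castAddHom ℚ) (z t)) = cf ψ := by
      funext t; exact (hz t).symm
    rw [h4, h1] at h3
    have h5 : ((hsh z a u : ℤ) : ℚ) = 0 := h3
    exact_mod_cast h5
  have h6 := map_hsh (Int.castAddHom (ZMod p)) z a u
  have h7 : (fun t => (Int.castAddHom (ZMod p)) (z t)) = c := by
    funext t; exact (h t).symm
  rw [h7, h2, map_zero] at h6
  exact h6.symm

theorem redM_st (hc : c ∈ redM w p) {u v : List ℕ+} (hu : u ≠ []) (hv : v ≠ [])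
    (hx : ∃ x ∈ u ++ v, x ≠ 1) : st (fun t => c (yw t)) u v = 0 := by
  obtain ⟨ψ, hψ, z, hz, h⟩ := hc
  have h1 : st (fun t => cf ψ (yw t)) u v = 0 := by
    rw [← st_prim (show Prim (psiStar ψ) from hψ.1.2.2.2.2) hu hv]
    apply st_congr
    intro t ht
    exact (cf_psiStar_of_ne ψ t (exists_ne_one_of_mem_stf ht hx)).symm
  have h2 : st (fun t => z (yw t)) u v = 0 := by
    have h3 := map_st (Int.castAddHom ℚ) (fun t => z (yw t)) u v
    have h4 : (fun t => (Int.castAddHom ℚ) (z (yw t))) = fun t => cf ψ (yw t) := by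
      funext t; exact (hz (yw t)).symm
    rw [h4, h1] at h3
    have h5 : ((st (fun t => z (yw t)) u v : ℤ) : ℚ) = 0 := h3
    exact_mod_cast h5
  have h6 := map_st (Int.castAddHom (ZMod p)) (fun t => z (yw t)) u v
  have h7 : (fun t => (Int.castAddHom (ZMod p)) (z (yw t))) = fun t => c (yw t) := by
    funext t; exact (h (yw t)).symm
  rw [h7, h2, map_zero] at h6
  exact h6.symm

theorem redM_ones (hc : c ∈ redM w p) (n : ℕ) : c (List.replicate n 1) = 0 := by
  obtain ⟨ψ, hψ, z, hz, h⟩ := hc
  have h1 := cf_ones hψ.1 n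
  rw [hz] at h1
  have h2 : z (List.replicate n 1) = 0 := by exact_mod_cast h1
  rw [h, h2]; simp

theorem redM_zeros (hc : c ∈ redM w p) (n : ℕ) : c (List.replicate n 0) = 0 := by
  obtain ⟨ψ, hψ, z, hz, h⟩ := hc
  have h1 := cf_zeros hψ.1 n
  rw [hz] at h1
  have h2 : z (List.replicate n 0) = 0 := by exact_mod_cast h1
  rw [h, h2]; simp

theorem redM_nil (hc : c ∈ redM w p) : c [] = 0 := redM_ones hc 0

theorem redM_01 (hc : c ∈ redM w p) : c [0, 1] = 0 := by
  obtain ⟨ψ, hψ, z, hz, h⟩ := hc
  have h1 : cf ψ [0, 1] = 0 := hψ.1.2.2.2.1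
  rw [hz] at h1
  have h2 : z [0, 1] = 0 := by exact_mod_cast h1
  rw [h, h2]; simp

end rels

/-! ### The stuffles of `1^a` and `1^b` -/

theorem st_smul {R : Type*} [CommRing R] (x : R) (c : List ℕ+ → R) (u v : List ℕ+) :
    st (fun t => x * c t) u v = x * st c u v := by
  rw [st, st, List.sum_map_mul_left]

theorem st_zero {R : Type*} [AddCommMonoid R] (u v : List ℕ+) :
    st (fun _ => (0 : R)) u v = 0 := by
  rw [st]; simp

/-- The coefficient of `1^(a+b)` in the stuffle of `1^a` and `1^b`. -/
theorem st_ones_delta (a b : ℕ) :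
    st (fun t => if t = List.replicate (a + b) 1 then (1 : ℚ) else 0) (List.replicate a 1)
      (List.replicate b 1) = ((a + b).choose a : ℚ) := by
  induction a generalizing b with
  | zero => simp
  | succ a iha =>
    induction b with
    | zero => simp
    | succ b ihb =>
      rw [List.replicate_succ, List.replicate_succ, st_cons_cons]
      have e0 : ∀ n m : ℕ, n = m + 1 → (fun t : List ℕ+ => if (1 : ℕ+) :: t =
          List.replicate n 1 then (1 : ℚ) else 0) =
          fun t => if t = List.replicate m 1 then 1 else 0 := by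
        intro n m hnm
        subst hnm
        funext t
        rw [List.replicate_succ]
        simp only [List.cons.injEq, true_and]
      have e1 := e0 (a + 1 + (b + 1)) (a + (b + 1)) (by ring)
      have e2 := e0 (a + 1 + (b + 1)) (a + 1 + b) (by ring)
      have h1 : st (fun t : List ℕ+ => if (1 : ℕ+) :: t = List.replicate (a + 1 + (b + 1)) 1 then
          (1 : ℚ) else 0) (List.replicate a 1) (1 :: List.replicate b 1) =
          ((a + (b + 1)).choose a : ℚ) := by
        rw [e1, ← List.replicate_succ]; exact iha (b + 1)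
      have h2 : st (fun t : List ℕ+ => if (1 : ℕ+) :: t = List.replicate (a + 1 + (b + 1)) 1 then
          (1 : ℚ) else 0) (1 :: List.replicate a 1) (List.replicate b 1) =
          ((a + 1 + b).choose (a + 1) : ℚ) := by
        rw [e2, ← List.replicate_succ]; exact ihb
      have h3 : (fun t : List ℕ+ => if ((1 : ℕ+) + 1) :: t = List.replicate (a + 1 + (b + 1)) 1 then
          (1 : ℚ) else 0) = fun _ => 0 := by
        funext t
        rw [if_neg]
        intro h
        rw [show a + 1 + (b + 1) = (a + b + 1) + 1 by ring, List.replicate_succ] at h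
        have h4 := (List.cons.inj h).1
        have h5 := congrArg (fun n : ℕ+ => (n : ℕ)) h4
        simp at h5
      rw [h3, st_zero, add_zero, h1, h2]
      have h7 : (a + 1 + (b + 1)).choose (a + 1) =
          (a + (b + 1)).choose a + (a + 1 + b).choose (a + 1) := by
        rw [show a + 1 + (b + 1) = (a + b + 1) + 1 by ring, Nat.choose_succ_succ,
          show a + (b + 1) = a + b + 1 by ring, show a + 1 + b = a + b + 1 by ring]
      rw [h7]
      push_cast
      ring

theorem cf_corr_ones {w : ℕ} (hw : 2 ≤ w) {ψ : NC (Fin 2)} :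
    cf (corr ψ) (List.replicate w 1) =
      (-1 : ℚ) ^ (w - 1) / w * cf ψ (List.replicate (w - 1) 0 ++ [1]) := by
  have h : cfL (List.replicate w (1 : ℕ+)) ∘ₗ corr =
      ((-1 : ℚ) ^ (w - 1) / w) • cfL (List.replicate (w - 1) (0 : Fin 2) ++ [1]) := by
    apply lin_ext
    intro l
    rw [LinearMap.comp_apply, corr, linw_wd, LinearMap.smul_apply]
    show cf _ _ = _ • cf (wd l) _
    by_cases hl : 2 ≤ l.length ∧ l = List.replicate (l.length - 1) 0 ++ [1]
    · rw [if_pos hl, cf_smul]
      by_cases hlw : l.length = w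
      · rw [hlw] at hl ⊢
        rw [cf_wd, cf_wd, if_pos rfl, if_pos hl.2]
        simp
      · rw [cf_wd, cf_wd, if_neg, if_neg]
        · simp
        · intro h0
          apply hlw
          rw [h0]; simp; omega
        · intro h0
          apply hlw
          have := congrArg List.length h0
          simpa using this
    · rw [if_neg hl, cf_zero, cf_wd, if_neg]
      · simp
      · intro h0
        apply hl
        have h1 : l.length = w := by rw [h0]; simp; omega
        rw [h1]
        exact ⟨hw, h0⟩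
  exact LinearMap.congr_fun h ψ

/-- The relation coming from the stuffles of `1^a` and `1^b`. -/
theorem st_ones_dm {ψ : NC (Fin 2)} (h : IsDM ψ) {a b : ℕ} (ha : 1 ≤ a) (hb : 1 ≤ b) :
    (a : ℚ) * st (fun t => cf ψ (yw t)) (List.replicate a 1) (List.replicate b 1) +
      (-1 : ℚ) ^ (a + b - 1) * ((a + b - 1).choose (a - 1) : ℚ) *
        cf ψ (List.replicate (a + b - 1) 0 ++ [1]) = 0 := by
  have h1 := st_prim (show Prim (psiStar ψ) from h.2.2.2.2) (u := List.replicate a 1)
    (v := List.replicate b 1) (by intro h0; have := congrArg List.length h0; simp at this; omega)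
    (by intro h0; have := congrArg List.length h0; simp at this; omega)
  have hw : 2 ≤ a + b := by omega
  have h2 : st (cf (psiStar ψ)) (List.replicate a 1) (List.replicate b 1) =
      st (fun t => cf ψ (yw t) + cf (corr ψ) (List.replicate (a + b) 1) *
        (if t = List.replicate (a + b) 1 then (1 : ℚ) else 0)) (List.replicate a 1)
        (List.replicate b 1) := by
    apply st_congr
    intro t ht
    by_cases h3 : ∃ x ∈ t, x ≠ 1
    · rw [cf_psiStar_of_ne ψ t h3, if_neg, mul_zero, add_zero]
      intro h4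
      obtain ⟨x, hx, hx1⟩ := h3
      rw [h4] at hx
      exact hx1 (List.eq_of_mem_replicate hx)
    · have h4 : t = List.replicate (a + b) 1 := by
        rcases all_ones_or t with h5 | ⟨u, n, v, hn, huv⟩
        · rw [h5]
          have h6 := wt_of_mem_stf ht
          rw [wt_replicate, wt_replicate] at h6
          have h7 : wt wY t = t.length := by rw [h5, wt_replicate]; simp
          rw [h7] at h6
          rw [h5]
          congr 1
          simpa using h6
        · exfalso
          apply h3
          refine ⟨n, ?_, ?_⟩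
          · rw [huv]; simp
          · intro h6; rw [h6] at hn; simp at hn
      rw [if_pos h4, mul_one, psiStar, cf_add]
      congr 1
      · rw [piY_eq, cf_Th]; simp
      · rw [h4]
  rw [h2, st_add, st_smul, st_ones_delta, cf_corr_ones hw] at h1
  have h3 : ((a + b : ℕ) : ℚ) ≠ 0 := by positivity
  have h4 : (a : ℚ) * ((a + b).choose a : ℚ) =
      ((a + b : ℕ) : ℚ) * ((a + b - 1).choose (a - 1) : ℚ) := by
    obtain ⟨a', rfl⟩ : ∃ a', a = a' + 1 := ⟨a - 1, by omega⟩
    have h5 := Nat.add_one_mul_choose_eq (a' + b) a'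
    rw [show a' + 1 + b = (a' + b) + 1 by omega]
    simp only [Nat.add_sub_cancel] at h5 ⊢
    have h6 : ((a' + b + 1 : ℕ) : ℚ) * ((a' + b).choose a' : ℚ) =
        ((a' + b + 1).choose (a' + 1) : ℚ) * ((a' + 1 : ℕ) : ℚ) := by exact_mod_cast h5
    rw [h6]; ring
  have h5 : (a : ℚ) * (st (fun t => cf ψ (yw t)) (List.replicate a 1) (List.replicate b 1) +
      (-1 : ℚ) ^ (a + b - 1) / ((a + b : ℕ) : ℚ) * cf ψ (List.replicate (a + b - 1) 0 ++ [1]) *
        ((a + b).choose a : ℚ)) = 0 := by rw [h1, mul_zero]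
  rw [← h5, mul_add]
  congr 1
  have h6 : (a : ℚ) * ((-1 : ℚ) ^ (a + b - 1) / ((a + b : ℕ) : ℚ) *
      cf ψ (List.replicate (a + b - 1) 0 ++ [1]) * ((a + b).choose a : ℚ)) =
      (-1 : ℚ) ^ (a + b - 1) / ((a + b : ℕ) : ℚ) * cf ψ (List.replicate (a + b - 1) 0 ++ [1]) *
        ((a : ℚ) * ((a + b).choose a : ℚ)) := by ring
  rw [h6, h4]
  field_simp

end

end Pool.Agent.ECB
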