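import Mathlib
import Pool.Agent.ECB.Sys

/-!
# The depth filtration and the linearised double shuffle system

`RelL w d` is the integral system for functions on the compositions of `w` into `d` parts: sums
over word shuffles and sums over letter shuffles vanish.
-/

set_option autoImplicit false

namespace Pool.Agent.ECB

open Pool.Agent.H4DM

noncomputable section

/-- The compositions of `w` into `d` parts. -/
abbrev Cmd (w d : ℕ) : Type := {t : List ℕ+ // wt wY t = w ∧ t.length = d}

instance (w d : ℕ) : Finite (Cmd w d) := by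
  let f : Cmd w d → Cmp w := fun t => ⟨t.1, t.2.1⟩
  apply Finite.of_injective f
  intro s t h
  exact Subtype.ext (congrArg (fun x : Cmp w => x.1) h)

instance (w d : ℕ) : Fintype (Cmd w d) := Fintype.ofFinite _

/-- Extension by zero. -/
def extd {R : Type*} [Zero R] {w d : ℕ} (c : Cmd w d → R) (t : List ℕ+) : R :=
  if h : wt wY t = w ∧ t.length = d then c ⟨t, h⟩ else 0

theorem extd_val {R : Type*} [Zero R] {w d : ℕ} (c : Cmd w d → R) (t : Cmd w d) :
    extd c t.1 = c t := by
  rw [extd, dif_pos t.2]

theorem extd_of_ne {R : Type*} [Zero R] {w d : ℕ} (c : Cmd w d → R) {t : List ℕ+}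
    (h : ¬ (wt wY t = w ∧ t.length = d)) : extd c t = 0 := by
  rw [extd, dif_neg h]

/-- The relations of the linearised double shuffle system. -/
def RelL (w d : ℕ) : Set (Cmd w d → ℤ) :=
  {r | (∃ u v : List ℕ+, u ≠ [] ∧ v ≠ [] ∧
      r = fun t => ((shf (yw u) (yw v)).count (yw t.1) : ℤ)) ∨
    (∃ u v : List ℕ+, u ≠ [] ∧ v ≠ [] ∧ r = fun t => ((shf u v).count t.1 : ℤ))}

theorem wsh_eq_sum_d {R : Type*} [CommRing R] {w d : ℕ} (c : Cmd w d → R) (u v : List ℕ+) :
    wsh (extd c) u v = ∑ t : Cmd w d, (((shf (yw u) (yw v)).count (yw t.1) : ℤ) : R) * c t := by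
  rw [wsh, sh, list_sum_eq (fun t : Cmd w d => yw t.1)
    (fun _ _ h => Subtype.ext (yw_injective h))]
  · apply Finset.sum_congr rfl
    intro t _
    simp only [parse_yw, extd_val]
  · intro l hl hr
    apply extd_of_ne
    intro h
    apply hr
    exact ⟨⟨(parse l).1, h⟩, (eq_yw_of_mem_shf hl).symm⟩

theorem sh_eq_sum_d {R : Type*} [CommRing R] {w d : ℕ} (c : Cmd w d → R) (u v : List ℕ+) :
    sh (extd c) u v = ∑ t : Cmd w d, (((shf u v).count t.1 : ℤ) : R) * c t := by
  rw [sh, list_sum_eq (fun t : Cmd w d => t.1) Subtype.val_injective]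
  · apply Finset.sum_congr rfl
    intro t _
    rw [extd_val]
  · intro l hl hr
    apply extd_of_ne
    intro h
    apply hr
    exact ⟨⟨l, h⟩, rfl⟩

theorem mem_SolL {R : Type*} [CommRing R] {w d : ℕ} {c : Cmd w d → R} :
    c ∈ Sol (RelL w d) R ↔ (∀ u v : List ℕ+, u ≠ [] → v ≠ [] → wsh (extd c) u v = 0) ∧
      (∀ u v : List ℕ+, u ≠ [] → v ≠ [] → sh (extd c) u v = 0) := by
  rw [mem_Sol]
  constructor
  · intro h
    refine ⟨?_, ?_⟩
    · intro u v hu hv
      rw [wsh_eq_sum_d]
      exact h _ (Or.inl ⟨u, v, hu, hv, rfl⟩)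
    · intro u v hu hv
      rw [sh_eq_sum_d]
      exact h _ (Or.inr ⟨u, v, hu, hv, rfl⟩)
  · rintro ⟨h1, h2⟩ r (⟨u, v, hu, hv, rfl⟩ | ⟨u, v, hu, hv, rfl⟩)
    · rw [← wsh_eq_sum_d]; exact h1 u v hu hv
    · rw [← sh_eq_sum_d]; exact h2 u v hu hv

theorem count_yw (t : List ℕ+) : (yw t).count 1 = t.length := by
  induction t with
  | nil => rfl
  | cons n t ih =>
    rw [yw, List.count_append, List.count_cons, ih, List.count_eq_zero_of_not_mem]
    · simp
    · intro h
      have := List.eq_of_mem_replicate h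
      exact absurd this (by decide)

theorem length_of_mem_shf_yw {u v : List ℕ+} {l : List (Fin 2)} (h : l ∈ shf (yw u) (yw v)) :
    (parse l).1.length = u.length + v.length := by
  rw [← count_yw, ← eq_yw_of_mem_shf h, (perm_of_mem_shf _ _ _ h).count_eq, List.count_append,
    count_yw, count_yw]

theorem length_le_wt (t : List ℕ+) : t.length ≤ wt wY t := by
  induction t with
  | nil => simp
  | cons n t ih =>
    rw [wt_cons, List.length_cons]
    have := wY_pos n
    omega

theorem all_ones_eq {w : ℕ} {t : List ℕ+} (h : wt wY t = w) (h1 : ∀ x ∈ t, x = 1) :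
    t = List.replicate w 1 := by
  have h2 : t = List.replicate t.length 1 := List.eq_replicate_iff.mpr ⟨rfl, h1⟩
  have h3 : t.length = w := by
    rw [h2, wt_replicate] at h
    simpa using h
  rw [← h3]; exact h2

section filt
variable (K : Type*) [Field K]

/-- The solutions vanishing in depth less than `d`. -/
def VF (w d : ℕ) : Submodule K (Cmp w → K) where
  carrier := {c | c ∈ Sol (RelE w) K ∧ ∀ t : Cmp w, t.1.length < d → c t = 0}
  zero_mem' := ⟨Submodule.zero_mem _, fun _ _ => rfl⟩
  add_mem' := by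
    rintro a b ⟨ha, ha'⟩ ⟨hb, hb'⟩
    refine ⟨Submodule.add_mem _ ha hb, fun t ht => ?_⟩
    rw [Pi.add_apply, ha' t ht, hb' t ht, add_zero]
  smul_mem' := by
    rintro x a ⟨ha, ha'⟩
    refine ⟨Submodule.smul_mem _ x ha, fun t ht => ?_⟩
    rw [Pi.smul_apply, ha' t ht, smul_zero]

variable {K}

/-- Restriction to depth `d`. -/
def resd (w d : ℕ) : (Cmp w → K) →ₗ[K] (Cmd w d → K) where
  toFun c t := c ⟨t.1, t.2.1⟩
  map_add' _ _ := rfl
  map_smul' _ _ := rfl

theorem extd_resd {w d : ℕ} (c : Cmp w → K) (t : List ℕ+) (ht : t.length = d) :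
    extd (resd w d c) t = ext0 c t := by
  by_cases h : wt wY t = w
  · rw [extd, dif_pos ⟨h, ht⟩, ext0, dif_pos h]; rfl
  · rw [extd_of_ne _ (fun h' => h h'.1), ext0_of_ne _ h]

theorem resd_mem {w d : ℕ} {c : Cmp w → K} (h : c ∈ VF K w d) :
    resd w d c ∈ Sol (RelL w d) K := by
  obtain ⟨h1, h2⟩ := h
  rw [mem_SolE] at h1
  obtain ⟨h3, h4, h5⟩ := h1
  have hlow : ∀ t : List ℕ+, t.length < d → ext0 c t = 0 := by
    intro t ht
    by_cases h : wt wY t = w
    · rw [ext0, dif_pos h]; exact h2 _ ht
    · exact ext0_of_ne _ h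
  rw [mem_SolL]
  constructor
  · intro u v hu hv
    by_cases hd : u.length + v.length = d
    · rw [← h3 u v hu hv]
      apply sh_congr
      intro l hl
      apply extd_resd
      rw [length_of_mem_shf_yw hl, hd]
    · rw [wsh, sh]
      apply List.sum_eq_zero
      intro x hx
      rw [List.mem_map] at hx
      obtain ⟨l, hl, rfl⟩ := hx
      apply extd_of_ne
      rintro ⟨_, h⟩
      rw [length_of_mem_shf_yw hl] at h
      exact hd h
  · intro u v hu hv
    by_cases hd : u.length + v.length = d
    · have e1 : sh (extd (resd w d c)) u v = sh (ext0 c) u v := by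
        apply sh_congr
        intro l hl
        apply extd_resd
        rw [length_of_mem_shf hl, hd]
      rw [e1]
      by_cases hx : ∃ x ∈ u ++ v, x ≠ 1
      · rw [← st_eq_sh]
        · exact h4 u v hu hv hx
        · intro t _ ht
          exact hlow t (by omega)
      · push Not at hx
        rw [sh]
        apply List.sum_eq_zero
        intro x hx'
        rw [List.mem_map] at hx'
        obtain ⟨l, hl, rfl⟩ := hx'
        by_cases h : wt wY l = w
        · rw [all_ones_eq h, h5]
          intro y hy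
          exact hx y ((perm_of_mem_shf u v l hl).mem_iff.mp hy)
        · exact ext0_of_ne _ h
    · rw [sh]
      apply List.sum_eq_zero
      intro x hx
      rw [List.mem_map] at hx
      obtain ⟨l, hl, rfl⟩ := hx
      apply extd_of_ne
      rintro ⟨_, h⟩
      rw [length_of_mem_shf hl] at h
      exact hd h

theorem finrank_VF_le (w d : ℕ) : Module.finrank K (VF K w d) ≤
    Module.finrank K (Sol (RelL w d) K) + Module.finrank K (VF K w (d + 1)) := by
  let f : VF K w d →ₗ[K] Sol (RelL w d) K :=
    LinearMap.codRestrict _ (resd w d ∘ₗ (VF K w d).subtype) (fun c => resd_mem c.2)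
  rw [← LinearMap.finrank_range_add_finrank_ker f]
  apply add_le_add
  · exact Submodule.finrank_le _
  · let g : LinearMap.ker f →ₗ[K] VF K w (d + 1) :=
      LinearMap.codRestrict _ ((VF K w d).subtype ∘ₗ (LinearMap.ker f).subtype) (by
        rintro ⟨⟨c, hc1, hc2⟩, hk⟩
        refine ⟨hc1, fun t ht => ?_⟩
        by_cases h : t.1.length < d
        · exact hc2 t h
        · have h' : t.1.length = d := by omega
          have h3 : resd w d c = 0 := congrArg Subtype.val (LinearMap.mem_ker.mp hk)
          exact congrFun h3 ⟨t.1, t.2, h'⟩)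
    apply LinearMap.finrank_le_finrank_of_injective (f := g)
    intro a b h
    apply Subtype.ext
    apply Subtype.ext
    exact congrArg (fun x : VF K w (d + 1) => (x : Cmp w → K)) h

theorem finrank_VF_zero (w : ℕ) (n : ℕ) : Module.finrank K (VF K w 0) ≤
    ∑ i ∈ Finset.range n, Module.finrank K (Sol (RelL w i) K) +
      Module.finrank K (VF K w n) := by
  induction n with
  | zero => simp
  | succ n ih =>
    rw [Finset.sum_range_succ]
    have := finrank_VF_le (K := K) w n
    omega

/-- The dimension of the space of solutions is at most the sum over all depths of the dimensions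
of the spaces of solutions of the linearised system. -/
theorem finrank_SolE_le (w : ℕ) : Module.finrank K (Sol (RelE w) K) ≤
    ∑ d ∈ Finset.range (w + 1), Module.finrank K (Sol (RelL w d) K) := by
  have h1 : Sol (RelE w) K = VF K w 0 := by
    apply le_antisymm
    · intro c hc
      exact ⟨hc, fun t ht => absurd ht (by omega)⟩
    · intro c hc; exact hc.1
  have h2 : VF K w (w + 1) = ⊥ := by
    rw [eq_bot_iff]
    intro c hc
    rw [Submodule.mem_bot]
    funext t
    apply hc.2 t
    have := length_le_wt t.1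
    rw [t.2] at this
    omega
  have h3 := finrank_VF_zero (K := K) w (w + 1)
  rw [h2, finrank_bot, add_zero] at h3
  rw [h1]; exact h3

end filt

/-- `dim dm_w ≤ ∑_d dim ls^d_w(F_p)`. -/
theorem finrank_dmw_le_sum (w p : ℕ) [Fact p.Prime] : Module.finrank ℚ (dmw w) ≤
    ∑ d ∈ Finset.range (w + 1), Module.finrank (ZMod p) (Sol (RelL w d) (ZMod p)) := by
  refine (finrank_dmw_le w).trans ((finrank_SolE_le w).trans ?_)
  apply Finset.sum_le_sum
  intro d _
  exact finrank_rat_le_zmod _ p

end

end Pool.Agent.ECB
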