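import Mathlib

/-!
# Contraction words

A list `(v₁, …, v_k)` is seen as the path `v₁, …, v_k, 0`.  A contraction step removes one of the
`v_i` by contracting one of the adjacent sides of the path and records the side.  `S1 F v` is the
sum of `F s r` over all steps (side `s`, remaining list `r`) and `TH n P v` is the sum of `P` over
the words of recorded sides of `n` successive steps.

In characteristic two, `TH n` kills the adjacent relations
`P(a,b) + P(b,a) + P(a,a+b) + P(b,a+b)`.
-/

set_option autoImplicit false

namespace Pool.Agent.ECB

section defs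
variable {V M : Type*} [Add V] [AddCommMonoid M]

/-- The sum over one contraction step. -/
def S1 (F : V → List V → M) : List V → M
  | [] => 0
  | [x] => F x []
  | x :: y :: t => F (x + y) (y :: t) + F (x + y) (x :: t) + S1 (fun s r => F s (x :: r)) (y :: t)

/-- The sum over the contraction words. -/
def TH : ℕ → (List V → M) → List V → M
  | 0, P, _ => P []
  | n + 1, P, v => S1 (fun s r => TH n (fun l => P (s :: l)) r) v

@[simp] theorem S1_nil (F : V → List V → M) : S1 F [] = 0 := rfl
@[simp] theorem S1_one (F : V → List V → M) (x : V) : S1 F [x] = F x [] := rfl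
theorem S1_cons (F : V → List V → M) (x y : V) (t : List V) : S1 F (x :: y :: t) =
    F (x + y) (y :: t) + F (x + y) (x :: t) + S1 (fun s r => F s (x :: r)) (y :: t) := rfl

theorem TH_zero (P : List V → M) (v : List V) : TH 0 P v = P [] := rfl
theorem TH_succ (n : ℕ) (P : List V → M) (v : List V) :
    TH (n + 1) P v = S1 (fun s r => TH n (fun l => P (s :: l)) r) v := rfl

theorem S1_add (F G : V → List V → M) (v : List V) :
    S1 (fun s r => F s r + G s r) v = S1 F v + S1 G v := by
  induction v generalizing F G with
  | nil => simp
  | cons x t ih =>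
    rcases t with _ | ⟨y, t⟩
    · simp
    · rw [S1_cons, S1_cons, S1_cons, ih]
      abel

theorem S1_zero (v : List V) : S1 (fun _ _ => (0 : M)) v = 0 := by
  induction v with
  | nil => simp
  | cons x t ih =>
    rcases t with _ | ⟨y, t⟩
    · simp
    · rw [S1_cons, ih]; simp

/-- Congruence: only the remaining lists of length `len v - 1` matter. -/
theorem S1_congr {F G : V → List V → M} (v : List V)
    (h : ∀ s r, r.length + 1 = v.length → F s r = G s r) : S1 F v = S1 G v := by
  induction v generalizing F G with
  | nil => simp
  | cons x t ih =>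
    rcases t with _ | ⟨y, t⟩
    · rw [S1_one, S1_one]; exact h _ _ rfl
    · rw [S1_cons, S1_cons, h _ _ (by simp), h _ _ (by simp)]
      congr 1
      apply ih
      intro s r hr
      apply h
      simp only [List.length_cons] at *
      omega

theorem TH_add (n : ℕ) (P Q : List V → M) (v : List V) :
    TH n (fun l => P l + Q l) v = TH n P v + TH n Q v := by
  induction n generalizing P Q v with
  | zero => rfl
  | succ n ih =>
    rw [TH_succ, TH_succ, TH_succ, ← S1_add]
    congr 1
    funext s r
    exact ih _ _ _

theorem TH_zero_fun (n : ℕ) (v : List V) : TH n (fun _ => (0 : M)) v = 0 := by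
  induction n generalizing v with
  | zero => rfl
  | succ n ih =>
    rw [TH_succ]
    simp only [ih]
    exact S1_zero v

theorem TH_sum {ι : Type*} (I : Finset ι) (n : ℕ) (P : ι → List V → M) (v : List V) :
    TH n (fun l => ∑ i ∈ I, P i l) v = ∑ i ∈ I, TH n (P i) v := by
  classical
  induction I using Finset.induction_on with
  | empty => simp [TH_zero_fun]
  | insert a I ha ih =>
    simp only [Finset.sum_insert ha]
    rw [TH_add, ih]

/-- Congruence: only the words of length `n` matter. -/
theorem TH_congr {P Q : List V → M} (n : ℕ) (v : List V)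
    (h : ∀ l, l.length = n → P l = Q l) : TH n P v = TH n Q v := by
  induction n generalizing P Q v with
  | zero => exact h [] rfl
  | succ n ih =>
    rw [TH_succ, TH_succ]
    apply S1_congr
    intro s r _
    apply ih
    intro l hl
    apply h
    rw [List.length_cons, hl]

end defs

section maps
variable {V M N : Type*} [Add V] [AddCommMonoid M] [AddCommMonoid N]

theorem map_S1 (φ : M →+ N) (F : V → List V → M) (v : List V) :
    φ (S1 F v) = S1 (fun s r => φ (F s r)) v := by
  induction v generalizing F with
  | nil => simp
  | cons x t ih =>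
    rcases t with _ | ⟨y, t⟩
    · simp
    · rw [S1_cons, S1_cons, map_add, map_add, ih]

theorem map_TH (φ : M →+ N) (n : ℕ) (P : List V → M) (v : List V) :
    φ (TH n P v) = TH n (fun l => φ (P l)) v := by
  induction n generalizing P v with
  | zero => rfl
  | succ n ih =>
    rw [TH_succ, TH_succ, map_S1]
    congr 1
    funext s r
    exact ih _ _

end maps

section kill
variable {V M : Type*} [AddCommGroup V] [AddCommGroup M]

/-- The key cancellation for two successive contraction steps. -/
theorem S1_S1_eq_zero (hV : ∀ x : V, x + x = 0) (hM : ∀ x : M, x + x = 0)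
    (H : V → V → List V → M) (hs : ∀ a b r, H a b r = H b a r)
    (ht : ∀ a b r, H a b r + H a (a + b) r + H b (a + b) r = 0) (v : List V) :
    S1 (fun s r => S1 (H s) r) v = 0 := by
  induction v generalizing H with
  | nil => simp
  | cons x t ih =>
    rcases t with _ | ⟨y, t⟩
    · simp
    · rcases t with _ | ⟨z, t⟩
      · rw [S1_cons, S1_one, S1_one, S1_one, S1_one]
        have h1 := ht x y []
        rw [hs (x + y) y, hs (x + y) x, hs y x, add_comm, ← add_assoc, add_right_comm]
        exact h1
      · have h1 := ih (fun a b r => H a b (x :: r)) (fun a b r => hs a b _)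
          (fun a b r => ht a b _)
        rw [S1_cons] at h1
        have e1 : (x + y) + (y + z) = x + z := by
          have := hV y
          calc (x + y) + (y + z) = x + z + (y + y) := by abel
            _ = x + z := by rw [this, add_zero]
        have a1 := ht (x + y) (y + z) (z :: t)
        have a2 := hM (H (x + y) (y + z) (y :: t))
        have a3 := ht (x + y) (y + z) (x :: t)
        rw [e1] at a1 a3
        have a4 : S1 (fun s r => H (x + y) s (y :: r)) (z :: t) +
            S1 (fun s r => H s (x + y) (y :: r)) (z :: t) = 0 := by
          rw [← S1_add, ← S1_zero (V := V) (M := M) (z :: t)]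
          congr 1
          funext s r
          rw [hs s (x + y)]; exact hM _
        have a5 : S1 (fun s r => H (x + y) s (x :: r)) (z :: t) +
            S1 (fun s r => H s (x + y) (x :: r)) (z :: t) = 0 := by
          rw [← S1_add, ← S1_zero (V := V) (M := M) (z :: t)]
          congr 1
          funext s r
          rw [hs s (x + y)]; exact hM _
        rw [S1_cons, S1_cons (H (x + y)), S1_cons (H (x + y))]
        rw [S1_cons (fun s r => S1 (H s) (x :: r)) y z t]
        rw [S1_cons (H (y + z)) x z t, S1_cons (H (y + z)) x y t]
        have e2 : S1 (fun s r => S1 (H s) (x :: y :: r)) (z :: t) =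
            S1 (fun s r => H s (x + y) (y :: r)) (z :: t) +
            S1 (fun s r => H s (x + y) (x :: r)) (z :: t) +
            S1 (fun s r => S1 (fun s' r' => H s s' (x :: r')) (y :: r)) (z :: t) := by
          rw [← S1_add, ← S1_add]
          rfl
        rw [e2, hs (y + z) (x + y) (y :: t), hs (y + z) (x + y) (x :: t)]
        have key : ∀ A1 A2 A3 B1 B2 B3 C1 C2 C3 D2 D3 E1 E2 E3 : M,
            A1 + B1 + C1 = 0 → A2 + A2 = 0 → D2 + B2 + C2 = 0 → A3 + E1 = 0 → B3 + E2 = 0 →
            C3 + D3 + E3 = 0 →
            A1 + A2 + A3 + (B1 + B2 + B3) + (C1 + C2 + C3 + (A2 + D2 + D3) + (E1 + E2 + E3)) = 0 := by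
          intro A1 A2 A3 B1 B2 B3 C1 C2 C3 D2 D3 E1 E2 E3 h1 h2 h3 h4 h5 h6
          calc _ = (A1 + B1 + C1) + (A2 + A2) + (D2 + B2 + C2) + (A3 + E1) + (B3 + E2) +
                (C3 + D3 + E3) := by abel
            _ = 0 := by rw [h1, h2, h3, h4, h5, h6]; simp
        apply key
        · exact a1
        · exact a2
        · exact a3
        · exact a4
        · exact a5
        · exact h1

/-- The adjacent relations at position `j`. -/
def Rg : ℕ → (List V → M) → List V → M
  | 0, P => fun l => match l with
    | a :: b :: l => P (a :: b :: l) + P (b :: a :: l) + P (a :: (a + b) :: l) +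
        P (b :: (a + b) :: l)
    | _ => 0
  | j + 1, P => fun l => match l with
    | a :: l => Rg j (fun m => P (a :: m)) l
    | [] => 0

theorem Rg_zero_cons (P : List V → M) (a b : V) (l : List V) :
    Rg 0 P (a :: b :: l) = P (a :: b :: l) + P (b :: a :: l) + P (a :: (a + b) :: l) +
        P (b :: (a + b) :: l) := rfl

theorem Rg_succ_cons (j : ℕ) (P : List V → M) (a : V) (l : List V) :
    Rg (j + 1) P (a :: l) = Rg j (fun m => P (a :: m)) l := rfl

/-- `TH n` kills the adjacent relations. -/
theorem TH_Rg (hV : ∀ x : V, x + x = 0) (hM : ∀ x : M, x + x = 0) (j n : ℕ) (hj : j + 2 ≤ n)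
    (P : List V → M) (v : List V) : TH n (Rg j P) v = 0 := by
  induction j generalizing n P v with
  | zero =>
    obtain ⟨m, rfl⟩ : ∃ m, n = m + 2 := ⟨n - 2, by omega⟩
    rw [TH_succ]
    simp only [TH_succ, Rg_zero_cons]
    apply S1_S1_eq_zero hV hM
      (fun a b r => TH m (fun l => P (a :: b :: l) + P (b :: a :: l) + P (a :: (a + b) :: l) +
        P (b :: (a + b) :: l)) r)
    · intro a b r
      congr 1
      funext l
      rw [add_comm b a]
      abel
    · intro a b r
      rw [← TH_add, ← TH_add, ← TH_zero_fun (V := V) (M := M) m r]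
      congr 1
      funext l
      have e1 : a + (a + b) = b := by rw [← add_assoc, hV, zero_add]
      have e2 : b + (a + b) = a := by rw [add_comm a b, ← add_assoc, hV, zero_add]
      rw [e1, e2]
      calc _ = P (a :: b :: l) + P (b :: a :: l) + P (a :: (a + b) :: l) + P (b :: (a + b) :: l) +
            (P (a :: (a + b) :: l) + P ((a + b) :: a :: l) + P (a :: b :: l) +
              P ((a + b) :: b :: l)) +
            (P (b :: (a + b) :: l) + P ((a + b) :: b :: l) + P (b :: a :: l) +
              P ((a + b) :: a :: l)) := by abel
        _ = (P (a :: b :: l) + P (a :: b :: l)) + (P (b :: a :: l) + P (b :: a :: l)) +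
            (P (a :: (a + b) :: l) + P (a :: (a + b) :: l)) +
            (P (b :: (a + b) :: l) + P (b :: (a + b) :: l)) +
            (P ((a + b) :: a :: l) + P ((a + b) :: a :: l)) +
            (P ((a + b) :: b :: l) + P ((a + b) :: b :: l)) := by abel
        _ = 0 := by simp [hM]
  | succ j ih =>
    obtain ⟨m, rfl⟩ : ∃ m, n = m + 1 := ⟨n - 1, by omega⟩
    rw [TH_succ]
    simp only [Rg_succ_cons]
    rw [← S1_zero (V := V) (M := M) v]
    congr 1
    funext s r
    exact ih m (by omega) _ _

end kill

end Pool.Agent.ECB
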