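import Mathlib
import Pool.Agent.ECB.Contr

/-!
# Rewriting to admissible monomials

In characteristic two the sums of a monomial over the contraction words are combinations of those
of the admissible monomials: exponents with `k_t ≤ 2 k_{t+1}`.
-/

set_option autoImplicit false

namespace Pool.Agent.ECB

/-- Admissible sequences. -/
def Adm : List ℕ → Prop
  | a :: b :: t => a ≤ 2 * b ∧ Adm (b :: t)
  | _ => True

theorem Adm_nil : Adm [] := trivial
theorem Adm_one (a : ℕ) : Adm [a] := trivial
theorem Adm_cons (a b : ℕ) (t : List ℕ) : Adm (a :: b :: t) ↔ a ≤ 2 * b ∧ Adm (b :: t) := Iff.rfl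

theorem exists_of_not_Adm (k : List ℕ) (h : ¬ Adm k) :
    ∃ (pre : List ℕ) (i j : ℕ) (suf : List ℕ), k = pre ++ i :: j :: suf ∧ 2 * j < i := by
  induction k with
  | nil => exact absurd Adm_nil h
  | cons a t ih =>
    rcases t with _ | ⟨b, t⟩
    · exact absurd (Adm_one a) h
    · by_cases hab : a ≤ 2 * b
      · have h' : ¬ Adm (b :: t) := fun h' => h ⟨hab, h'⟩
        obtain ⟨pre, i, j, suf, h1, h2⟩ := ih h'
        exact ⟨a :: pre, i, j, suf, by rw [h1]; rfl, h2⟩
      · exact ⟨[], a, b, t, rfl, by omega⟩

/-- A measure which decreases when weight is moved to the right. -/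
def mu : List ℕ → ℕ
  | [] => 0
  | a :: t => a * t.length + mu t

theorem mu_append_lt (pre suf : List ℕ) {i j i' j' : ℕ} (h1 : i' < i) (h2 : i' + j' = i + j) :
    mu (pre ++ i' :: j' :: suf) < mu (pre ++ i :: j :: suf) := by
  induction pre with
  | nil =>
    simp only [List.nil_append, mu, List.length_cons]
    have e1 : i' * (suf.length + 1) + (j' * suf.length + mu suf) =
      (i' + j') * suf.length + i' + mu suf := by ring
    have e2 : i * (suf.length + 1) + (j * suf.length + mu suf) =
      (i + j) * suf.length + i + mu suf := by ring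
    rw [e1, e2, h2]
    omega
  | cons a pre ih =>
    simp only [List.cons_append, mu, List.length_append, List.length_cons] at *
    omega

/-- If inadmissible elements can be rewritten, the admissible ones span. -/
theorem span_adm {K M : Type*} [Ring K] [AddCommGroup M] [Module K M] (d n : ℕ) (T : List ℕ → M)
    (h : ∀ (pre : List ℕ) (i j : ℕ) (suf : List ℕ), 2 * j < i →
      (pre ++ i :: j :: suf).length = d → (pre ++ i :: j :: suf).sum = n →
      T (pre ++ i :: j :: suf) ∈ Submodule.span K
        {x | ∃ i' j', i' < i ∧ i' + j' = i + j ∧ x = T (pre ++ i' :: j' :: suf)})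
    (k : List ℕ) (hk : k.length = d) (hs : k.sum = n) :
    T k ∈ Submodule.span K {x | ∃ k', Adm k' ∧ k'.length = d ∧ k'.sum = n ∧ x = T k'} := by
  induction hm : mu k using Nat.strong_induction_on generalizing k with
  | _ m ih =>
    by_cases hA : Adm k
    · exact Submodule.subset_span ⟨k, hA, hk, hs, rfl⟩
    · obtain ⟨pre, i, j, suf, rfl, hij⟩ := exists_of_not_Adm k hA
      refine Submodule.span_le.mpr ?_ (h pre i j suf hij hk hs)
      rintro x ⟨i', j', h1, h2, rfl⟩
      apply ih (mu (pre ++ i' :: j' :: suf)) (by rw [← hm]; exact mu_append_lt pre suf h1 h2) _ _ _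
        rfl
      · rw [← hk]; simp
      · rw [← hs]
        simp only [List.sum_append, List.sum_cons]
        omega

section mono
variable {A : Type*} [CommRing A]

/-- The monomial with exponents `k`. -/
def mono : List A → List ℕ → A
  | [], [] => 1
  | a :: s, i :: k => a ^ i * mono s k
  | [], _ :: _ => 0
  | _ :: _, [] => 0

theorem mono_nil : mono ([] : List A) [] = 1 := rfl
theorem mono_cons (a : A) (s : List A) (i : ℕ) (k : List ℕ) :
    mono (a :: s) (i :: k) = a ^ i * mono s k := rfl
theorem mono_nil_cons (i : ℕ) (k : List ℕ) : mono ([] : List A) (i :: k) = 0 := rfl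
theorem mono_cons_nil (a : A) (s : List A) : mono (a :: s) [] = 0 := rfl

/-- A monomial with a general function of two adjacent variables. -/
def PG : List ℕ → (A → A → A) → List ℕ → List A → A
  | [], G, suf, x :: y :: s => G x y * mono s suf
  | [], _, _, [_] => 0
  | [], _, _, [] => 0
  | i :: pre, G, suf, a :: s => a ^ i * PG pre G suf s
  | _ :: _, _, _, [] => 0

theorem PG_sum {ι : Type*} (I : Finset ι) (pre suf : List ℕ) (G : ι → A → A → A) (s : List A) :
    PG pre (fun x y => ∑ q ∈ I, G q x y) suf s = ∑ q ∈ I, PG pre (G q) suf s := by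
  induction pre generalizing s with
  | nil =>
    rcases s with _ | ⟨x, _ | ⟨y, s⟩⟩
    · simp [PG]
    · simp [PG]
    · simp only [PG]; rw [Finset.sum_mul]
  | cons i pre ih =>
    rcases s with _ | ⟨a, s⟩
    · simp [PG]
    · simp only [PG]; rw [ih, Finset.mul_sum]

theorem PG_add (pre suf : List ℕ) (G G' : A → A → A) (s : List A) :
    PG pre (fun x y => G x y + G' x y) suf s = PG pre G suf s + PG pre G' suf s := by
  induction pre generalizing s with
  | nil =>
    rcases s with _ | ⟨x, _ | ⟨y, s⟩⟩
    · simp [PG]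
    · simp [PG]
    · simp only [PG]; ring
  | cons i pre ih =>
    rcases s with _ | ⟨a, s⟩
    · simp [PG]
    · simp only [PG]; rw [ih]; ring

theorem PG_smul (pre suf : List ℕ) (c : A) (G : A → A → A) (s : List A) :
    PG pre (fun x y => c * G x y) suf s = c * PG pre G suf s := by
  induction pre generalizing s with
  | nil =>
    rcases s with _ | ⟨x, _ | ⟨y, s⟩⟩
    · simp [PG]
    · simp [PG]
    · simp only [PG]; ring
  | cons i pre ih =>
    rcases s with _ | ⟨a, s⟩
    · simp [PG]
    · simp only [PG]; rw [ih]; ring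

theorem PG_mono (pre suf : List ℕ) (i j : ℕ) (s : List A) :
    PG pre (fun x y => x ^ i * y ^ j) suf s = mono s (pre ++ i :: j :: suf) := by
  induction pre generalizing s with
  | nil =>
    rcases s with _ | ⟨x, _ | ⟨y, s⟩⟩
    · simp [PG, mono]
    · simp [PG, mono]
    · simp only [PG, List.nil_append, mono]; ring
  | cons a pre ih =>
    rcases s with _ | ⟨b, s⟩
    · simp [PG, mono]
    · simp only [PG, List.cons_append, mono]; rw [ih]

theorem Rg_mul (j : ℕ) (c : A) (P : List A → A) (l : List A) :
    Rg j (fun m => c * P m) l = c * Rg j P l := by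
  induction j generalizing P l with
  | zero =>
    rcases l with _ | ⟨x, _ | ⟨y, l⟩⟩
    · simp [Rg]
    · simp [Rg]
    · rw [Rg_zero_cons, Rg_zero_cons]; ring
  | succ j ih =>
    rcases l with _ | ⟨x, l⟩
    · simp [Rg]
    · rw [Rg_succ_cons, Rg_succ_cons]
      exact ih (fun m => P (x :: m)) l

theorem Rg_PG (pre suf : List ℕ) (G : A → A → A) (s : List A) :
    Rg pre.length (PG pre G suf) s =
      PG pre (fun x y => G x y + G y x + G x (x + y) + G y (x + y)) suf s := by
  induction pre generalizing s with
  | nil =>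
    rcases s with _ | ⟨x, _ | ⟨y, s⟩⟩
    · simp [PG, Rg]
    · simp [PG, Rg]
    · rw [List.length_nil, Rg_zero_cons]
      simp only [PG]; ring
  | cons i pre ih =>
    rcases s with _ | ⟨a, s⟩
    · simp [PG, Rg]
    · rw [List.length_cons, Rg_succ_cons]
      simp only [PG]
      rw [Rg_mul, ih]

variable [CharP A 2]

theorem two_self (x : A) : x + x = 0 := CharTwo.add_self_eq_zero x

/-- The relations used for the rewriting. -/
theorem rel_eq (b m : ℕ) (x y : A) :
    (x * y * (x + y)) ^ b * y ^ m + (y * x * (y + x)) ^ b * x ^ m +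
      (x * (x + y) * (x + (x + y))) ^ b * (x + y) ^ m +
      (y * (x + y) * (y + (x + y))) ^ b * (x + y) ^ m =
    ∑ q ∈ Finset.range (b + 1), (b.choose q : A) *
      (x ^ (b + q + m) * y ^ (b + (b - q)) + x ^ (b + q) * y ^ (b + (b - q) + m)) := by
  have e1 : x + (x + y) = y := by rw [← add_assoc, two_self, zero_add]
  have e2 : y + (x + y) = x := by rw [add_comm x y, ← add_assoc, two_self, zero_add]
  rw [e1, e2]
  have e3 : x * (x + y) * y = x * y * (x + y) := by ring
  have e4 : y * (x + y) * x = x * y * (x + y) := by ring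
  have e5 : y * x * (y + x) = x * y * (x + y) := by ring
  rw [e3, e4, e5, add_assoc, two_self, add_zero, ← mul_add, mul_pow, add_pow]
  rw [Finset.mul_sum, Finset.sum_mul]
  apply Finset.sum_congr rfl
  intro q _
  rw [mul_pow]
  ring

/-- The rewriting rule. -/
theorem TH_rel (pre suf : List ℕ) (b m d : ℕ) (hd : pre.length + 2 ≤ d) (v : List A) :
    ∑ q ∈ Finset.range (b + 1), (b.choose q : A) *
      (TH d (fun s => mono s (pre ++ (b + q + m) :: (b + (b - q)) :: suf)) v +
       TH d (fun s => mono s (pre ++ (b + q) :: (b + (b - q) + m) :: suf)) v) = 0 := by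
  have h := TH_Rg (fun x : A => two_self x) (fun x : A => two_self x) pre.length d hd
    (PG pre (fun x y : A => (x * y * (x + y)) ^ b * y ^ m) suf) v
  have h2 : Rg pre.length (PG pre (fun x y : A => (x * y * (x + y)) ^ b * y ^ m) suf) =
      fun s => ∑ q ∈ Finset.range (b + 1), (b.choose q : A) *
        (mono s (pre ++ (b + q + m) :: (b + (b - q)) :: suf) +
          mono s (pre ++ (b + q) :: (b + (b - q) + m) :: suf)) := by
    funext s
    rw [Rg_PG]
    simp only [rel_eq]
    rw [PG_sum]
    apply Finset.sum_congr rfl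
    intro q _
    rw [PG_smul, PG_add, PG_mono, PG_mono]
  rw [h2, TH_sum] at h
  rw [← h]
  apply Finset.sum_congr rfl
  intro q _
  have h3 := map_TH (AddMonoidHom.mulLeft (b.choose q : A)) d
    (fun s => mono s (pre ++ (b + q + m) :: (b + (b - q)) :: suf) +
          mono s (pre ++ (b + q) :: (b + (b - q) + m) :: suf)) v
  simp only [AddMonoidHom.coe_mulLeft] at h3
  rw [← h3, TH_add]

/-- The contraction sums of all monomials are spanned by those of the admissible ones. -/
theorem TH_mem_span [Algebra (ZMod 2) A] (v : List A) (d n : ℕ) (k : List ℕ) (hk : k.length = d)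
    (hs : k.sum = n) : TH d (fun s => mono s k) v ∈ Submodule.span (ZMod 2)
      {x | ∃ k', Adm k' ∧ k'.length = d ∧ k'.sum = n ∧ x = TH d (fun s => mono s k') v} := by
  apply span_adm (K := ZMod 2) d n (fun k => TH d (fun s => mono s k) v) _ k hk hs
  intro pre i j suf hij hl _
  obtain ⟨m, hm, rfl⟩ : ∃ m, 0 < m ∧ i = 2 * j + m := ⟨i - 2 * j, by omega, by omega⟩
  have hd : pre.length + 2 ≤ d := by
    rw [← hl]; simp
  have h := TH_rel pre suf j m d hd v
  rw [Finset.sum_range_succ, Nat.choose_self, Nat.cast_one, one_mul, Nat.sub_self, add_zero] at h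
  have e0 : j + j + m = 2 * j + m := by ring
  rw [e0] at h
  set S := Submodule.span (ZMod 2) {x | ∃ i' j', i' < 2 * j + m ∧ i' + j' = 2 * j + m + j ∧
    x = TH d (fun s => mono s (pre ++ i' :: j' :: suf)) v} with hS
  have hmem : ∀ i' j', i' < 2 * j + m → i' + j' = 2 * j + m + j →
      TH d (fun s => mono s (pre ++ i' :: j' :: suf)) v ∈ S := fun i' j' h1 h2 =>
    Submodule.subset_span ⟨i', j', h1, h2, rfl⟩
  have hsum : ∑ q ∈ Finset.range j, (j.choose q : A) *
      (TH d (fun s => mono s (pre ++ (j + q + m) :: (j + (j - q)) :: suf)) v +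
       TH d (fun s => mono s (pre ++ (j + q) :: (j + (j - q) + m) :: suf)) v) ∈ S := by
    apply Submodule.sum_mem
    intro q hq
    rw [Finset.mem_range] at hq
    rw [← nsmul_eq_mul]
    apply nsmul_mem
    apply Submodule.add_mem
    · exact hmem _ _ (by omega) (by omega)
    · exact hmem _ _ (by omega) (by omega)
  have hlast : TH d (fun s => mono s (pre ++ (j + j) :: (j + m) :: suf)) v ∈ S :=
    hmem _ _ (by omega) (by omega)
  have h6 : TH d (fun s => mono s (pre ++ (2 * j + m) :: j :: suf)) v =
      -(∑ q ∈ Finset.range j, (j.choose q : A) *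
      (TH d (fun s => mono s (pre ++ (j + q + m) :: (j + (j - q)) :: suf)) v +
       TH d (fun s => mono s (pre ++ (j + q) :: (j + (j - q) + m) :: suf)) v) +
      TH d (fun s => mono s (pre ++ (j + j) :: (j + m) :: suf)) v) := by
    linear_combination h
  show TH d (fun s => mono s (pre ++ (2 * j + m) :: j :: suf)) v ∈ S
  rw [h6]
  exact Submodule.neg_mem _ (Submodule.add_mem _ hsum hlast)

end mono

end Pool.Agent.ECB
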