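import Mathlib
import Pool.Agent.ECB.Filt
import Pool.Agent.ECB.Rewrite

/-!
# Generating functions of solutions of the linearised double shuffle system

For a solution `c` and elements `a₁, …, a_d` of a commutative algebra, `GF c [a₁, …, a_d]` is
`∑ c(k) a₁^(k₁-1) ⋯ a_d^(k_d-1)`.  It kills the shuffles of the `a_i` and, in the variables
`w_i` with `a_i = w_i + ⋯ + w_d`, the shuffles of the `w_i`.
-/

set_option autoImplicit false

namespace Pool.Agent.ECB

open Pool.Agent.H4DM

/-- The pairs of complementary subsequences, with multiplicity. -/
def Un {α : Type*} : List α → List (List α × List α)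
  | [] => [([], [])]
  | a :: t => (Un t).map (fun p => (a :: p.1, p.2)) ++ (Un t).map (fun p => (p.1, a :: p.2))

theorem Un_nil {α : Type*} : Un ([] : List α) = [([], [])] := rfl

theorem Un_cons {α : Type*} (a : α) (t : List α) : Un (a :: t) =
    (Un t).map (fun p => (a :: p.1, p.2)) ++ (Un t).map (fun p => (p.1, a :: p.2)) := rfl

theorem Un_sum_cons {α R : Type*} [AddCommMonoid R] (g : List α × List α → R) (a : α)
    (t : List α) : ((Un (a :: t)).map g).sum =
      ((Un t).map (fun p => g (a :: p.1, p.2))).sum +
      ((Un t).map (fun p => g (p.1, a :: p.2))).sum := by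
  rw [Un_cons, List.map_append, List.sum_append, List.map_map, List.map_map]
  rfl

section count
variable {α : Type*} [DecidableEq α]

theorem count_map_cons (a b : α) (u : List α) (L : List (List α)) :
    (L.map (a :: ·)).count (b :: u) = if a = b then L.count u else 0 := by
  induction L with
  | nil => simp
  | cons x L ih =>
    rw [List.map_cons, List.count_cons, ih, List.count_cons]
    by_cases h : a = b
    · subst h; simp
    · simp [h]

theorem count_map_cons_nil (a : α) (L : List (List α)) :
    (L.map (a :: ·)).count [] = 0 := by
  induction L with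
  | nil => simp
  | cons x L ih => rw [List.map_cons, List.count_cons, ih]; simp

theorem count_left (a b : α) (u v : List α) (L : List (List α × List α)) :
    (L.map (fun p => (a :: p.1, p.2))).count (b :: u, v) = if a = b then L.count (u, v) else 0 := by
  induction L with
  | nil => simp
  | cons x L ih =>
    rw [List.map_cons, List.count_cons, ih, List.count_cons]
    obtain ⟨x1, x2⟩ := x
    by_cases h : a = b
    · subst h; simp
    · simp [h]

theorem count_left_nil (a : α) (v : List α) (L : List (List α × List α)) :
    (L.map (fun p => (a :: p.1, p.2))).count ([], v) = 0 := by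
  induction L with
  | nil => simp
  | cons x L ih => rw [List.map_cons, List.count_cons, ih]; simp

theorem count_right (a b : α) (u v : List α) (L : List (List α × List α)) :
    (L.map (fun p => (p.1, a :: p.2))).count (u, b :: v) = if a = b then L.count (u, v) else 0 := by
  induction L with
  | nil => simp
  | cons x L ih =>
    rw [List.map_cons, List.count_cons, ih, List.count_cons]
    obtain ⟨x1, x2⟩ := x
    by_cases h : a = b
    · subst h; simp
    · simp [h]

theorem count_right_nil (a : α) (u : List α) (L : List (List α × List α)) :
    (L.map (fun p => (p.1, a :: p.2))).count (u, []) = 0 := by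
  induction L with
  | nil => simp
  | cons x L ih => rw [List.map_cons, List.count_cons, ih]; simp

/-- The duality between shuffles and complementary subsequences. -/
theorem count_Un (t u v : List α) : (Un t).count (u, v) = (shf u v).count t := by
  induction t generalizing u v with
  | nil =>
    rcases u with _ | ⟨a, u⟩
    · rcases v with _ | ⟨b, v⟩
      · simp [Un_nil]
      · simp [Un_nil]
    · rcases v with _ | ⟨b, v⟩
      · simp [Un_nil]
      · rw [shf_cons_cons, List.count_append, count_map_cons_nil, count_map_cons_nil]
        simp [Un_nil]
  | cons x t ih =>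
    rw [Un_cons, List.count_append]
    rcases u with _ | ⟨a, u⟩
    · rw [count_left_nil]
      rcases v with _ | ⟨b, v⟩
      · rw [count_right_nil]; simp
      · rw [count_right, ih, shf_nil_left, shf_nil_left]
        by_cases h : x = b
        · subst h; simp [List.count_cons]
        · simp [h, eq_comm]
    · rw [count_left, ih]
      rcases v with _ | ⟨b, v⟩
      · rw [count_right_nil, shf_nil_right, shf_nil_right]
        by_cases h : x = a
        · subst h; simp [List.count_cons]
        · simp [h, eq_comm]
      · rw [count_right, ih, shf_cons_cons, List.count_append, count_map_cons, count_map_cons]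
        simp only [eq_comm]

end count

section duality
variable {α : Type*} [DecidableEq α] {R A : Type*} [CommRing R] [CommRing A] [Algebra R A]

/-- Exchange of the sums over complementary subsequences and over shuffles. -/
theorem duality {Z P : Type*} [Fintype Z] [Fintype P] (ez : Z → List α)
    (hez : Function.Injective ez) (ep : P → List α × List α) (hep : Function.Injective ep)
    (C : List α → R) (g : List α × List α → A)
    (h1 : ∀ z, ∀ p ∈ Un (ez z), p ∉ Set.range ep → g p = 0)
    (h2 : ∀ p, ∀ l ∈ shf (ep p).1 (ep p).2, l ∉ Set.range ez → C l = 0) :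
    ∑ z, C (ez z) • ((Un (ez z)).map g).sum = ∑ p, sh C (ep p).1 (ep p).2 • g (ep p) := by
  have e1 : ∀ z, C (ez z) • ((Un (ez z)).map g).sum =
      ∑ p, ((((shf (ep p).1 (ep p).2).count (ez z) : ℤ) : R) * C (ez z)) • g (ep p) := by
    intro z
    rw [list_sum_eq ep hep g _ (h1 z), Finset.smul_sum]
    apply Finset.sum_congr rfl
    intro p _
    rw [← count_Un, Prod.mk.eta, mul_comm _ (C (ez z)), mul_smul, Int.cast_smul_eq_zsmul,
      zsmul_eq_mul]
  have e2 : ∀ p, sh C (ep p).1 (ep p).2 • g (ep p) =
      ∑ z, ((((shf (ep p).1 (ep p).2).count (ez z) : ℤ) : R) * C (ez z)) • g (ep p) := by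
    intro p
    rw [sh, list_sum_eq ez hez C _ (h2 p), Finset.sum_smul]
  rw [Finset.sum_congr rfl (fun z _ => e1 z), Finset.sum_congr rfl (fun p _ => e2 p)]
  exact Finset.sum_comm

end duality

section identities
variable {A : Type*} [CommRing A]

theorem sh_zero_fun {α : Type*} (u v : List α) : sh (fun _ => (0 : A)) u v = 0 := by
  rw [sh]
  apply List.sum_eq_zero
  intro x hx
  rw [List.mem_map] at hx
  obtain ⟨_, _, rfl⟩ := hx
  rfl

theorem sh_mul_left {α : Type*} (c : A) (f : List α → A) (u v : List α) :
    sh (fun s => c * f s) u v = c * sh f u v := by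
  rw [sh, sh, List.sum_map_mul_left]

theorem sum_map_mul (c : A) {β : Type*} (f : β → A) (L : List β) :
    (L.map (fun p => c * f p)).sum = c * (L.map f).sum :=
  List.sum_map_mul_left _ _ _

theorem sum_map_zero {β : Type*} (L : List β) : (L.map (fun _ => (0 : A))).sum = 0 := by
  simp

/-- The monomial attached to a composition. -/
def mo (s : List A) (t : List ℕ+) : A := mono s (t.map (fun n : ℕ+ => (n : ℕ) - 1))

theorem mo_nil : mo ([] : List A) [] = 1 := rfl
theorem mo_cons (a : A) (s : List A) (n : ℕ+) (t : List ℕ+) :
    mo (a :: s) (n :: t) = a ^ ((n : ℕ) - 1) * mo s t := rfl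
theorem mo_nil_cons (n : ℕ+) (t : List ℕ+) : mo ([] : List A) (n :: t) = 0 := rfl
theorem mo_cons_nil (a : A) (s : List A) : mo (a :: s) [] = 0 := rfl

theorem mo_of_ne {s : List A} {t : List ℕ+} (h : s.length ≠ t.length) : mo s t = 0 := by
  induction s generalizing t with
  | nil =>
    rcases t with _ | ⟨n, t⟩
    · exact absurd rfl h
    · rfl
  | cons a s ih =>
    rcases t with _ | ⟨n, t⟩
    · rfl
    · rw [mo_cons, ih, mul_zero]
      intro h'
      apply h
      simp [h']

theorem Un_mo (t : List ℕ+) (u v : List A) :
    ((Un t).map (fun p => mo u p.1 * mo v p.2)).sum = sh (fun s => mo s t) u v := by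
  induction t generalizing u v with
  | nil =>
    rw [Un_nil]
    rcases u with _ | ⟨a, u⟩
    · simp [mo_nil]
    · rcases v with _ | ⟨b, v⟩
      · simp [mo_nil]
      · rw [sh_cons_cons]
        simp only [mo_cons_nil, sh_zero_fun]
        simp [mo_cons_nil]
  | cons n t ih =>
    rw [Un_sum_cons]
    rcases u with _ | ⟨a, u⟩
    · simp only [mo_nil_cons, zero_mul, sum_map_zero, zero_add, sh_nil_left]
      rcases v with _ | ⟨b, v⟩
      · simp only [mo_nil_cons, mul_zero, sum_map_zero]
      · have h := ih [] v
        rw [sh_nil_left] at h
        simp only [mo_cons]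
        rw [← h, ← sum_map_mul]
        congr 1
        apply List.map_congr_left
        intro p _
        ring
    · rcases v with _ | ⟨b, v⟩
      · simp only [mo_nil_cons, mul_zero, sum_map_zero, add_zero, sh_nil_right]
        have h := ih u []
        rw [sh_nil_right] at h
        simp only [mo_cons]
        rw [← h, ← sum_map_mul]
        congr 1
        apply List.map_congr_left
        intro p _
        ring
      · rw [sh_cons_cons]
        simp only [mo_cons, sh_mul_left]
        rw [← ih, ← ih, ← sum_map_mul, ← sum_map_mul]
        congr 1
        · congr 1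
          apply List.map_congr_left
          intro p _
          ring
        · congr 1
          apply List.map_congr_left
          intro p _
          ring

/-- The coefficient of a word in `(1-a₁x₀)⁻¹x₁⋯(1-a_dx₀)⁻¹x₁`. -/
def WW : List A → List (Fin 2) → A
  | [], [] => 1
  | [], _ :: _ => 0
  | _ :: _, [] => 0
  | a :: s, x :: l => if x = 0 then a * WW (a :: s) l else WW s l

theorem WW_nil : WW ([] : List A) [] = 1 := by simp [WW]
theorem WW_nil_cons (x : Fin 2) (l : List (Fin 2)) : WW ([] : List A) (x :: l) = 0 := by simp [WW]
theorem WW_cons_nil (a : A) (s : List A) : WW (a :: s) [] = 0 := by simp [WW]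
theorem WW_zero (a : A) (s : List A) (l : List (Fin 2)) :
    WW (a :: s) (0 :: l) = a * WW (a :: s) l := by simp [WW]
theorem WW_one (a : A) (s : List A) (l : List (Fin 2)) :
    WW (a :: s) (1 :: l) = WW s l := by simp [WW]

/-- The list of the sums of the tails. -/
def tl : List A → List A
  | [] => []
  | a :: s => (a + s.sum) :: tl s

theorem tl_nil : tl ([] : List A) = [] := rfl
theorem tl_cons (a : A) (s : List A) : tl (a :: s) = (a + s.sum) :: tl s := rfl

theorem length_tl (s : List A) : (tl s).length = s.length := by
  induction s with
  | nil => rfl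
  | cons a s ih => rw [tl_cons, List.length_cons, ih, List.length_cons]

theorem sum_of_mem_shf' {u v s : List A} (h : s ∈ shf u v) : s.sum = u.sum + v.sum := by
  rw [← List.sum_append]
  exact (perm_of_mem_shf u v s h).sum_eq

theorem Un_WW (l : List (Fin 2)) (u v : List A) :
    ((Un l).map (fun p => WW (tl u) p.1 * WW (tl v) p.2)).sum =
      sh (fun s => WW (tl s) l) u v := by
  induction l generalizing u v with
  | nil =>
    rw [Un_nil]
    rcases u with _ | ⟨a, u⟩
    · simp [tl_nil, WW_nil]
    · rcases v with _ | ⟨b, v⟩
      · simp [tl_nil, WW_nil]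
      · rw [sh_cons_cons]
        simp only [tl_cons, WW_cons_nil, sh_zero_fun]
        simp [WW_cons_nil]
  | cons x l ih =>
    rw [Un_sum_cons]
    have hx : x = 0 ∨ x = 1 := by
      fin_cases x
      · exact Or.inl rfl
      · exact Or.inr rfl
    rcases u with _ | ⟨a, u⟩
    · simp only [tl_nil, WW_nil_cons, zero_mul, sum_map_zero, zero_add, sh_nil_left]
      rcases v with _ | ⟨b, v⟩
      · simp only [tl_nil, WW_nil_cons, mul_zero, sum_map_zero]
      · rcases hx with rfl | rfl
        · have h := ih [] (b :: v)
          rw [sh_nil_left, tl_nil, tl_cons] at h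
          simp only [tl_cons, WW_zero]
          rw [← h, ← sum_map_mul]
          congr 1
          apply List.map_congr_left
          intro p _
          ring
        · have h := ih [] v
          rw [sh_nil_left, tl_nil] at h
          simp only [tl_cons, WW_one]
          rw [← h]
    · rcases v with _ | ⟨b, v⟩
      · simp only [tl_nil, WW_nil_cons, mul_zero, sum_map_zero, add_zero, sh_nil_right]
        rcases hx with rfl | rfl
        · have h := ih (a :: u) []
          rw [sh_nil_right, tl_nil, tl_cons] at h
          simp only [tl_cons, WW_zero]
          rw [← h, ← sum_map_mul]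
          congr 1
          apply List.map_congr_left
          intro p _
          ring
        · have h := ih u []
          rw [sh_nil_right, tl_nil] at h
          simp only [tl_cons, WW_one]
          rw [← h]
      · rw [sh_cons_cons]
        rcases hx with rfl | rfl
        · have h := ih (a :: u) (b :: v)
          rw [sh_cons_cons] at h
          have e1 : sh (fun s => WW (tl (a :: s)) (0 :: l)) u (b :: v) =
              ((a + u.sum) + (b + v.sum)) * sh (fun s => WW (tl (a :: s)) l) u (b :: v) := by
            rw [← sh_mul_left]
            apply sh_congr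
            intro s hs
            rw [tl_cons, WW_zero, sum_of_mem_shf' hs, List.sum_cons]
            ring
          have e2 : sh (fun s => WW (tl (b :: s)) (0 :: l)) (a :: u) v =
              ((a + u.sum) + (b + v.sum)) * sh (fun s => WW (tl (b :: s)) l) (a :: u) v := by
            rw [← sh_mul_left]
            apply sh_congr
            intro s hs
            rw [tl_cons, WW_zero, sum_of_mem_shf' hs, List.sum_cons]
            ring
          rw [e1, e2, ← mul_add, ← h, add_mul]
          simp only [tl_cons, WW_zero]
          rw [← sum_map_mul, ← sum_map_mul]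
          congr 1
          · congr 1
            apply List.map_congr_left
            intro p _
            ring
          · congr 1
            apply List.map_congr_left
            intro p _
            ring
        · have h1 := ih u (b :: v)
          have h2 := ih (a :: u) v
          have e1 : sh (fun s => WW (tl (a :: s)) (1 :: l)) u (b :: v) =
              sh (fun s => WW (tl s) l) u (b :: v) := by
            apply sh_congr
            intro s _
            rw [tl_cons, WW_one]
          have e2 : sh (fun s => WW (tl (b :: s)) (1 :: l)) (a :: u) v =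
              sh (fun s => WW (tl s) l) (a :: u) v := by
            apply sh_congr
            intro s _
            rw [tl_cons, WW_one]
          rw [e1, e2, ← h1, ← h2]
          simp only [tl_cons, WW_one]

theorem WW_replicate (a : A) (s : List A) (m : ℕ) (l : List (Fin 2)) :
    WW (a :: s) (List.replicate m 0 ++ 1 :: l) = a ^ m * WW s l := by
  induction m with
  | zero => rw [List.replicate_zero, List.nil_append, WW_one, pow_zero, one_mul]
  | succ m ih => rw [List.replicate_succ, List.cons_append, WW_zero, ih, pow_succ']; ring

theorem WW_yw (s : List A) (t : List ℕ+) : WW s (yw t) = mo s t := by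
  induction t generalizing s with
  | nil =>
    rcases s with _ | ⟨a, s⟩
    · rw [yw, WW_nil, mo_nil]
    · rw [yw, WW_cons_nil, mo_cons_nil]
  | cons n t ih =>
    rcases s with _ | ⟨a, s⟩
    · rw [mo_nil_cons]
      obtain ⟨x, l, hl⟩ : ∃ x l, yw (n :: t) = x :: l := by
        apply List.exists_cons_of_ne_nil
        rw [yw]; simp
      rw [hl, WW_nil_cons]
    · rw [yw, WW_replicate, ih, mo_cons]

theorem WW_ne {s : List A} {l : List (Fin 2)} (h : WW s l ≠ 0) :
    (parse l).2 = 0 ∧ (parse l).1.length = s.length := by
  induction l generalizing s with
  | nil =>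
    rcases s with _ | ⟨a, s⟩
    · exact ⟨rfl, rfl⟩
    · exact absurd (WW_cons_nil a s) h
  | cons x l ih =>
    rcases s with _ | ⟨a, s⟩
    · exact absurd (WW_nil_cons x l) h
    · have hx : x = 0 ∨ x = 1 := by
        fin_cases x
        · exact Or.inl rfl
        · exact Or.inr rfl
      rcases hx with rfl | rfl
      · rw [WW_zero] at h
        obtain ⟨h1, h2⟩ := ih (right_ne_zero_of_mul h)
        rcases hp : (parse l).1 with _ | ⟨n, t⟩
        · rw [hp] at h2; simp at h2
        · rw [parse_zero_cons hp]
          rw [hp] at h2
          exact ⟨h1, h2⟩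
      · rw [WW_one] at h
        obtain ⟨h1, h2⟩ := ih h
        rw [parse_one]
        exact ⟨h1, by simp [h2]⟩

end identities

end Pool.Agent.ECB
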