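import Mathlib
import Pool.Agent.ECB.Gen

/-!
# The generating function of a solution is bi-alternal
-/

set_option autoImplicit false

namespace Pool.Agent.ECB

open Pool.Agent.H4DM

noncomputable section

variable {R A : Type*} [CommRing R] [CommRing A] [Algebra R A]

/-- The generating function of a function on the compositions of `w` into `d` parts. -/
def GF {w d : ℕ} (c : Cmd w d → R) (s : List A) : A := ∑ t : Cmd w d, c t • mo s t.1

theorem GF_of_ne {w d : ℕ} (c : Cmd w d → R) {s : List A} (h : s.length ≠ d) : GF c s = 0 := by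
  rw [GF]
  apply Finset.sum_eq_zero
  intro t _
  rw [mo_of_ne, smul_zero]
  rw [t.2.2]; exact h

theorem sh_sum {α ι M : Type*} [AddCommMonoid M] (I : Finset ι) (f : ι → List α → M)
    (u v : List α) : sh (fun s => ∑ i ∈ I, f i s) u v = ∑ i ∈ I, sh (f i) u v := by
  classical
  induction I using Finset.induction_on with
  | empty =>
    simp only [Finset.sum_empty]
    rw [sh]
    apply List.sum_eq_zero
    intro x hx
    rw [List.mem_map] at hx
    obtain ⟨_, _, rfl⟩ := hx
    rfl
  | insert a I ha ih =>
    simp only [Finset.sum_insert ha]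
    rw [sh_add, ih]

theorem sh_smul {α : Type*} (c : R) (f : List α → A) (u v : List α) :
    sh (fun s => c • f s) u v = c • sh f u v := by
  rw [sh, sh]
  induction shf u v with
  | nil => simp
  | cons x L ih => rw [List.map_cons, List.sum_cons, ih, List.map_cons, List.sum_cons, smul_add]

/-- Pairs of lists of positive integers with total weight `w` and total length `d`. -/
abbrev PP (w d : ℕ) : Type := {p : List ℕ+ × List ℕ+ // wt wY p.1 + wt wY p.2 = w ∧
  p.1.length + p.2.length = d}

instance (w d : ℕ) : Finite (PP w d) := by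
  let f : PP w d → (Σ i : Fin (w + 1), Cmp i) × (Σ i : Fin (w + 1), Cmp i) := fun p =>
    (⟨⟨wt wY p.1.1, by have := p.2.1; omega⟩, ⟨p.1.1, rfl⟩⟩,
      ⟨⟨wt wY p.1.2, by have := p.2.1; omega⟩, ⟨p.1.2, rfl⟩⟩)
  apply Finite.of_injective f
  intro p q h
  apply Subtype.ext
  apply Prod.ext
  · exact congrArg (fun x : (Σ i : Fin (w + 1), Cmp i) × (Σ i : Fin (w + 1), Cmp i) => x.1.2.1) h
  · exact congrArg (fun x : (Σ i : Fin (w + 1), Cmp i) × (Σ i : Fin (w + 1), Cmp i) => x.2.2.1) h

instance (w d : ℕ) : Fintype (PP w d) := Fintype.ofFinite _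

/-- Pairs of words of total length `w`. -/
abbrev PW (w : ℕ) : Type := {p : List (Fin 2) × List (Fin 2) // p.1.length + p.2.length = w}

instance (w : ℕ) : Finite (PW w) := by
  let f : PW w → (Σ i : Fin (w + 1), List.Vector (Fin 2) i) ×
      (Σ i : Fin (w + 1), List.Vector (Fin 2) i) := fun p =>
    (⟨⟨p.1.1.length, by have := p.2; omega⟩, ⟨p.1.1, rfl⟩⟩,
      ⟨⟨p.1.2.length, by have := p.2; omega⟩, ⟨p.1.2, rfl⟩⟩)
  apply Finite.of_injective f
  intro p q h
  apply Subtype.ext
  apply Prod.ext
  · exact congrArg (fun x : (Σ i : Fin (w + 1), List.Vector (Fin 2) i) ×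
      (Σ i : Fin (w + 1), List.Vector (Fin 2) i) => x.1.2.1) h
  · exact congrArg (fun x : (Σ i : Fin (w + 1), List.Vector (Fin 2) i) ×
      (Σ i : Fin (w + 1), List.Vector (Fin 2) i) => x.2.2.1) h

instance (w : ℕ) : Fintype (PW w) := Fintype.ofFinite _

theorem length_of_mem_Un {α : Type*} {t : List α} {p : List α × List α} (h : p ∈ Un t) :
    p.1.length + p.2.length = t.length := by
  induction t generalizing p with
  | nil => rw [Un_nil, List.mem_singleton] at h; subst h; rfl
  | cons a t ih =>
    rw [Un_cons, List.mem_append, List.mem_map, List.mem_map] at h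
    rcases h with ⟨q, hq, rfl⟩ | ⟨q, hq, rfl⟩
    · have := ih hq
      simp only [List.length_cons]; omega
    · have := ih hq
      simp only [List.length_cons]; omega

theorem wt_of_mem_Un {t : List ℕ+} {p : List ℕ+ × List ℕ+} (h : p ∈ Un t) :
    wt wY p.1 + wt wY p.2 = wt wY t := by
  induction t generalizing p with
  | nil => rw [Un_nil, List.mem_singleton] at h; subst h; rfl
  | cons a t ih =>
    rw [Un_cons, List.mem_append, List.mem_map, List.mem_map] at h
    rcases h with ⟨q, hq, rfl⟩ | ⟨q, hq, rfl⟩
    · have := ih hq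
      simp only [wt_cons]; omega
    · have := ih hq
      simp only [wt_cons]; omega

theorem length_pos_of_ne {α : Type*} {u : List α} (h : u ≠ []) : u.length ≠ 0 := by
  intro h0; exact h (List.length_eq_zero_iff.mp h0)

/-- The generating function kills the shuffles of the variables. -/
theorem GF_sh {w d : ℕ} {c : Cmd w d → R} (hc : c ∈ Sol (RelL w d) R) {u v : List A}
    (hu : u ≠ []) (hv : v ≠ []) : sh (GF c) u v = 0 := by
  rw [mem_SolL] at hc
  have e1 : sh (GF c) u v = ∑ t : Cmd w d, c t •
      ((Un t.1).map (fun p => mo u p.1 * mo v p.2)).sum := by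
    rw [show (GF c : List A → A) = fun s => ∑ t : Cmd w d, c t • mo s t.1 from rfl, sh_sum]
    apply Finset.sum_congr rfl
    intro t _
    rw [sh_smul, Un_mo]
  have e2 := duality (R := R) (A := A) (fun t : Cmd w d => t.1) Subtype.val_injective
    (fun p : PP w d => p.1) Subtype.val_injective (extd c) (fun p => mo u p.1 * mo v p.2)
    (by
      intro t p hp hr
      exfalso
      apply hr
      refine ⟨⟨p, ?_, ?_⟩, rfl⟩
      · rw [wt_of_mem_Un hp, t.2.1]
      · rw [length_of_mem_Un hp, t.2.2])
    (by
      intro p l hl hr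
      apply extd_of_ne
      intro h
      exact hr ⟨⟨l, h⟩, rfl⟩)
  simp only [extd_val] at e2
  rw [e1, e2]
  apply Finset.sum_eq_zero
  intro p _
  by_cases h1 : p.1.1 = []
  · have h2 : mo u p.1.1 = 0 := by
      apply mo_of_ne
      rw [h1]; exact length_pos_of_ne hu
    rw [h2, zero_mul, smul_zero]
  · by_cases h2 : p.1.2 = []
    · have h3 : mo v p.1.2 = 0 := by
        apply mo_of_ne
        rw [h2]; exact length_pos_of_ne hv
      rw [h3, mul_zero, smul_zero]
    · rw [hc.2 _ _ h1 h2, zero_smul]

/-- The generating function kills the shuffles of the variables `w_i`. -/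
theorem GF_sh_tl {w d : ℕ} {c : Cmd w d → R} (hc : c ∈ Sol (RelL w d) R) {u v : List A}
    (hu : u ≠ []) (hv : v ≠ []) : sh (fun s => GF c (tl s)) u v = 0 := by
  rw [mem_SolL] at hc
  have e1 : sh (fun s => GF c (tl s)) u v = ∑ t : Cmd w d, c t •
      ((Un (yw t.1)).map (fun p => WW (tl u) p.1 * WW (tl v) p.2)).sum := by
    rw [show (fun s : List A => GF c (tl s)) =
      fun s => ∑ t : Cmd w d, c t • mo (tl s) t.1 from rfl, sh_sum]
    apply Finset.sum_congr rfl
    intro t _
    rw [sh_smul, Un_WW]
    simp only [WW_yw]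
  have e2 := duality (R := R) (A := A) (fun t : Cmd w d => yw t.1)
    (fun _ _ h => Subtype.ext (yw_injective h))
    (fun p : PW w => p.1) Subtype.val_injective (fun l => extd c (parse l).1)
    (fun p => WW (tl u) p.1 * WW (tl v) p.2)
    (by
      intro t p hp hr
      exfalso
      apply hr
      refine ⟨⟨p, ?_⟩, rfl⟩
      rw [length_of_mem_Un hp, length_yw, t.2.1])
    (by
      intro p l hl hr
      apply extd_of_ne
      intro h
      apply hr
      refine ⟨⟨(parse l).1, h⟩, ?_⟩
      have h1 := length_parse l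
      rw [h.1, length_of_mem_shf hl, p.2] at h1
      have h2 : (parse l).2 = 0 := by omega
      have h3 := unparse_parse l
      rw [h2] at h3
      simpa using h3)
  simp only [parse_yw, extd_val] at e2
  rw [e1, e2]
  apply Finset.sum_eq_zero
  intro p _
  by_cases h1 : WW (tl u) p.1.1 = 0
  · rw [h1, zero_mul, smul_zero]
  · by_cases h2 : WW (tl v) p.1.2 = 0
    · rw [h2, mul_zero, smul_zero]
    · obtain ⟨a1, a2⟩ := WW_ne h1
      obtain ⟨b1, b2⟩ := WW_ne h2
      have a3 := unparse_parse p.1.1
      rw [a1] at a3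
      have b3 := unparse_parse p.1.2
      rw [b1] at b3
      have a4 : yw (parse p.1.1).1 = p.1.1 := by simpa using a3
      have b4 : yw (parse p.1.2).1 = p.1.2 := by simpa using b3
      have a5 : (parse p.1.1).1 ≠ [] := by
        intro h0
        rw [h0, length_tl] at a2
        exact length_pos_of_ne hu a2.symm
      have b5 : (parse p.1.2).1 ≠ [] := by
        intro h0
        rw [h0, length_tl] at b2
        exact length_pos_of_ne hv b2.symm
      have h6 := hc.1 _ _ a5 b5
      rw [wsh, a4, b4] at h6
      rw [h6, zero_smul]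

end

end Pool.Agent.ECB
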