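import Mathlib
import Pool.Agent.ECB.GenB

/-!
# The bound by the number of admissible compositions, from the key identity

`KI d` is the key identity: a function on lists of length `d` in an `𝔽₂`-vector space which kills
the shuffles of the `v_i` and, in the variables `w_i` with `v_i = w_i + ⋯ + w_d`, those of the
`w_i`, is reproduced by the sum over the contraction words.
-/

set_option autoImplicit false

namespace Pool.Agent.ECB

open Pool.Agent.H4DM

/-- The list of the sums of the tails, in an additive group. -/
def tla {V : Type*} [AddCommMonoid V] : List V → List V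
  | [] => []
  | a :: s => (a + s.sum) :: tla s

theorem tla_eq_tl {A : Type*} [CommRing A] (s : List A) : tla s = tl s := by
  induction s with
  | nil => rfl
  | cons a s ih => rw [tla, tl, ih]

/-- The key identity in depth `d`. -/
def KI (d : ℕ) : Prop := ∀ (V M : Type) [AddCommGroup V] [AddCommGroup M], (∀ x : V, x + x = 0) →
  (∀ x : M, x + x = 0) → ∀ f : List V → M,
  (∀ u v : List V, u ≠ [] → v ≠ [] → u.length + v.length = d → sh f u v = 0) →
  (∀ u v : List V, u ≠ [] → v ≠ [] → u.length + v.length = d → sh (fun s => f (tla s)) u v = 0) →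
  ∀ x : List V, x.length = d → f x = TH d f x

noncomputable section

/-- The exponents attached to a composition. -/
def exps (t : List ℕ+) : List ℕ := t.map (fun n : ℕ+ => (n : ℕ) - 1)

theorem length_exps (t : List ℕ+) : (exps t).length = t.length := by simp [exps]

theorem sum_exps (t : List ℕ+) : (exps t).sum + t.length = wt wY t := by
  induction t with
  | nil => rfl
  | cons n t ih =>
    have h : exps (n :: t) = ((n : ℕ) - 1) :: exps t := rfl
    rw [h, List.sum_cons, List.length_cons, wt_cons, ← ih]
    have := n.pos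
    show _ = (n : ℕ) + _
    omega

theorem exps_succPNat (k : List ℕ) : exps (k.map Nat.succPNat) = k := by
  induction k with
  | nil => rfl
  | cons a k ih =>
    have h : exps ((a :: k).map Nat.succPNat) = ((a.succPNat : ℕ) - 1) :: exps (k.map Nat.succPNat) :=
      rfl
    rw [h, ih]
    simp

/-- The admissible compositions of `w` into `d` parts: `k_t < 2 k_{t+1}` for all `t`. -/
abbrev AdmC (w d : ℕ) : Type := {t : Cmd w d // Adm (exps t.1)}

instance (w d : ℕ) : Finite (AdmC w d) := Subtype.finite

instance (w d : ℕ) : Fintype (AdmC w d) := Fintype.ofFinite _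

/-- The polynomial ring. -/
abbrev Pol (d : ℕ) : Type := MvPolynomial (Fin d) (ZMod 2)

/-- The list of the variables. -/
def vars (d : ℕ) : List (Pol d) := List.ofFn (fun i : Fin d => (MvPolynomial.X i : Pol d))

theorem length_vars (d : ℕ) : (vars d).length = d := by simp [vars]

theorem mo_ofFn {A : Type*} [CommRing A] (d : ℕ) (x : Fin d → A) (t : List ℕ+)
    (ht : t.length = d) : mo (List.ofFn x) t =
      ∏ i : Fin d, x i ^ (((t.get (i.cast ht.symm)) : ℕ) - 1) := by
  induction d generalizing t with
  | zero =>
    have : t = [] := List.length_eq_zero_iff.mp ht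
    subst this
    simp [mo_nil]
  | succ d ih =>
    rcases t with _ | ⟨n, t⟩
    · simp at ht
    · rw [List.ofFn_succ, mo_cons, ih (fun i => x i.succ) t (by simpa using ht),
        Fin.prod_univ_succ]
      rfl

theorem mo_vars_eq (d : ℕ) (t : List ℕ+) (ht : t.length = d) : mo (vars d) t =
    MvPolynomial.monomial (Finsupp.equivFunOnFinite.symm
      (fun i : Fin d => ((t.get (i.cast ht.symm)) : ℕ) - 1)) (1 : ZMod 2) := by
  rw [vars, mo_ofFn d _ t ht, MvPolynomial.monomial_eq]
  rw [map_one, one_mul, Finsupp.prod_fintype _ _ (by intro i; simp)]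
  rfl

theorem linearIndependent_mo (w d : ℕ) :
    LinearIndependent (ZMod 2) (fun t : Cmd w d => mo (vars d) t.1) := by
  have h1 : (fun t : Cmd w d => mo (vars d) t.1) =
      (fun s : Fin d →₀ ℕ => MvPolynomial.monomial s (1 : ZMod 2)) ∘
      (fun t : Cmd w d => Finsupp.equivFunOnFinite.symm
      (fun i : Fin d => ((t.1.get (i.cast t.2.2.symm)) : ℕ) - 1)) := by
    funext t
    exact mo_vars_eq d t.1 t.2.2
  rw [h1]
  apply LinearIndependent.comp
  · have := (MvPolynomial.basisMonomials (Fin d) (ZMod 2)).linearIndependent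
    rwa [MvPolynomial.coe_basisMonomials] at this
  · intro s t h
    have h2 := Finsupp.equivFunOnFinite.symm.injective h
    apply Subtype.ext
    apply List.ext_get
    · rw [s.2.2, t.2.2]
    · intro n hn1 hn2
      have h3 := congrFun h2 ⟨n, by rw [s.2.2] at hn1; exact hn1⟩
      simp only [Fin.cast_mk] at h3
      apply PNat.eq
      have a1 := (s.1.get ⟨n, hn1⟩).pos
      have a2 := (t.1.get ⟨n, hn2⟩).pos
      omega

/-- The generating function in the variables, as a linear map. -/
def GFL (w d : ℕ) : (Cmd w d → ZMod 2) →ₗ[ZMod 2] Pol d where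
  toFun c := GF c (vars d)
  map_add' a b := by
    simp only [GF, Pi.add_apply, add_smul, Finset.sum_add_distrib]
  map_smul' r a := by
    simp only [GF, Pi.smul_apply, smul_eq_mul, mul_smul, RingHom.id_apply, Finset.smul_sum]

theorem GFL_injective (w d : ℕ) : Function.Injective (GFL w d) := by
  rw [injective_iff_map_eq_zero]
  intro c hc
  have h := Fintype.linearIndependent_iff.mp (linearIndependent_mo w d) c hc
  funext t
  exact h t

theorem TH_smul {V K M : Type*} [Add V] [Ring K] [AddCommGroup M] [Module K M] (n : ℕ) (c : K)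
    (P : List V → M) (v : List V) : TH n (fun l => c • P l) v = c • TH n P v := by
  have := map_TH (DistribSMul.toAddMonoidHom M c) n P v
  simpa using this.symm

/-- The span of the contraction sums of the admissible monomials. -/
def SpA (w d : ℕ) : Submodule (ZMod 2) (Pol d) :=
  Submodule.span (ZMod 2) (Set.range (fun t : AdmC w d => TH d (fun s => mo s t.1.1) (vars d)))

theorem TH_mo_mem (w d : ℕ) (t : Cmd w d) : TH d (fun s => mo s t.1) (vars d) ∈ SpA w d := by
  have h := TH_mem_span (vars d) d (exps t.1).sum (exps t.1) (by rw [length_exps, t.2.2]) rfl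
  refine Submodule.span_le.mpr ?_ h
  rintro x ⟨k', hA, hl, hs, rfl⟩
  have e1 := exps_succPNat k'
  have e2 := sum_exps (k'.map Nat.succPNat)
  rw [e1, List.length_map, hl, hs] at e2
  have e3 := sum_exps t.1
  rw [t.2.1, t.2.2] at e3
  apply Submodule.subset_span
  refine ⟨⟨⟨k'.map Nat.succPNat, ?_, ?_⟩, ?_⟩, ?_⟩
  · rw [← e2, e3]
  · rw [List.length_map, hl]
  · show Adm (exps (k'.map Nat.succPNat))
    rw [e1]; exact hA
  · show TH d (fun s => mono s (exps (k'.map Nat.succPNat))) (vars d) = _
    rw [e1]

theorem finrank_SpA_le (w d : ℕ) : Module.finrank (ZMod 2) (SpA w d) ≤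
    Fintype.card (AdmC w d) := by
  classical
  exact finrank_range_le_card _

instance (w d : ℕ) : Module.Finite (ZMod 2) (SpA w d) :=
  Module.Finite.span_of_finite _ (Set.finite_range _)

/-- The key identity bounds the dimension of the space of solutions of the linearised system
modulo `2` by the number of admissible compositions. -/
theorem finrank_SolL_le (w d : ℕ) (hKI : KI d) :
    Module.finrank (ZMod 2) (Sol (RelL w d) (ZMod 2)) ≤ Fintype.card (AdmC w d) := by
  have hmem : ∀ c : Sol (RelL w d) (ZMod 2), GFL w d c.1 ∈ SpA w d := by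
    intro c
    have h1 : GF c.1 (vars d) = TH d (GF c.1) (vars d) := by
      apply hKI (Pol d) (Pol d) (fun x => two_self x) (fun x => two_self x) (GF c.1) _ _ _
        (length_vars d)
      · intro u v hu hv _
        exact GF_sh c.2 hu hv
      · intro u v hu hv _
        simp only [tla_eq_tl]
        exact GF_sh_tl c.2 hu hv
    show GF c.1 (vars d) ∈ SpA w d
    rw [h1]
    have h2 : TH d (GF c.1) (vars d) =
        ∑ t : Cmd w d, c.1 t • TH d (fun s => mo s t.1) (vars d) := by
      rw [show (GF c.1 : List (Pol d) → Pol d) = fun s => ∑ t : Cmd w d, c.1 t • mo s t.1 from rfl,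
        TH_sum]
      apply Finset.sum_congr rfl
      intro t _
      exact TH_smul _ _ _ _
    rw [h2]
    apply Submodule.sum_mem
    intro t _
    exact Submodule.smul_mem _ _ (TH_mo_mem w d t)
  let g : Sol (RelL w d) (ZMod 2) →ₗ[ZMod 2] SpA w d :=
    LinearMap.codRestrict _ (GFL w d ∘ₗ (Sol (RelL w d) (ZMod 2)).subtype) hmem
  have hg : Function.Injective g := by
    intro a b h
    apply Subtype.ext
    apply GFL_injective
    exact congrArg (fun x : SpA w d => (x : Pol d)) h
  exact (LinearMap.finrank_le_finrank_of_injective hg).trans (finrank_SpA_le w d)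

/-- The admissible compositions of `w`. -/
abbrev AdmW (w : ℕ) : Type := {t : Cmp w // Adm (exps t.1)}

instance (w : ℕ) : Finite (AdmW w) := Subtype.finite

instance (w : ℕ) : Fintype (AdmW w) := Fintype.ofFinite _

theorem card_AdmW (w : ℕ) : ∑ d ∈ Finset.range (w + 1), Fintype.card (AdmC w d) =
    Fintype.card (AdmW w) := by
  classical
  rw [← Fintype.card_fin (∑ d ∈ Finset.range (w + 1), Fintype.card (AdmC w d))]
  have e : (Σ d : Fin (w + 1), AdmC w d) ≃ AdmW w :=
    { toFun := fun p => ⟨⟨p.2.1.1, p.2.1.2.1⟩, p.2.2⟩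
      invFun := fun t => ⟨⟨t.1.1.length, by
        have := length_le_wt t.1.1
        rw [t.1.2] at this
        omega⟩, ⟨⟨t.1.1, t.1.2, rfl⟩, t.2⟩⟩
      left_inv := by
        rintro ⟨⟨d, hd⟩, ⟨⟨t, h1, h2⟩, h3⟩⟩
        simp only at h2
        subst h2
        rfl
      right_inv := by
        rintro ⟨⟨t, h1⟩, h3⟩
        rfl }
  rw [Fintype.card_fin, ← Fintype.card_congr e, Fintype.card_sigma, Finset.sum_range]

/-- The key identity in all depths implies: `dim dm_w` is at most the number of compositions
`(k₁, …, k_d)` of `w` with `k_t < 2 k_{t+1}` for all `t`. -/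
theorem finrank_dmw_le_card (w : ℕ) (hKI : ∀ d ≤ w, KI d) :
    Module.finrank ℚ (dmw w) ≤ Fintype.card (AdmW w) := by
  rw [← card_AdmW]
  refine (finrank_dmw_le_sum w 2).trans ?_
  apply Finset.sum_le_sum
  intro d hd
  rw [Finset.mem_range] at hd
  exact finrank_SolL_le w d (hKI d (by omega))

end

end Pool.Agent.ECB
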